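import Pool.Agent.Q193.Zeta.Dir
import Pool.Agent.Q193.LT.Prime
import Pool.Agent.Z125.UN.Grad

/-!
# The schemes whose zeta function has a meromorphic continuation
-/

set_option autoImplicit false

open CategoryTheory AlgebraicGeometry Pool.Agent.Y116.UV Pool.Agent.Z125.UN Complex Filter Topology

namespace Pool.Agent.Q193.Zeta

/-- The zeta function has a meromorphic continuation to `ℂ`. -/
def Co (X : Sch ℤ) : Prop := HasCont (zeta X.left)

lemma ft_bounded {X : Sch ℤ} (hX : FT False X) : ∃ C k : ℕ, Bounded X.left C k := by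
  have h1 := hX.locallyOfFiniteType
  have h2 := hX.quasiCompact
  exact bounded X.hom

lemma ft_zeta {X : Sch ℤ} (hX : FT False X) {C k : ℕ} (h : Bounded X.left C k) {s : ℂ}
    (hs : (k : ℝ) + 1 < s.re) : zeta X.left s = Complex.exp (lz X.left s) := by
  have h1 := hX.locallyOfFiniteType
  exact zeta_eq h X.hom hs

/-- Equal numbers of points. -/
lemma co_congr {X Y : Sch ℤ} (hX : FT False X) (hY : FT False Y)
    (h : ∀ (K : Type) [Field K] [Finite K], Nat.card (Pt X.left K) = Nat.card (Pt Y.left K))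
    (hc : Co X) : Co Y := by
  obtain ⟨C, k, b1⟩ := ft_bounded hX
  obtain ⟨C', k', b2⟩ := ft_bounded hY
  refine HasCont.congr hc (τ := max ((k : ℝ) + 1) ((k' : ℝ) + 1)) fun s hs => ?_
  rw [ft_zeta hX b1 (lt_of_le_of_lt (le_max_left _ _) hs),
    ft_zeta hY b2 (lt_of_le_of_lt (le_max_right _ _) hs)]
  have h1 : (fun m => (cf (nm X.left) m : ℂ)) = fun m => (cf (nm Y.left) m : ℂ) := by
    funext m
    have := cf_congr b1 b2 (fun _ => 1) (fun K _ _ => by
      rw [one_mul]
      exact_mod_cast h K) m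
    rw [this, one_mul]
  rw [lz, lz, h1]

/-- The zeta functions of a closed subscheme and its complement. -/
lemma zeta_triple {Z X U : Sch ℤ} {i : Z ⟶ X} {j : U ⟶ X} (hX : FT False X)
    (hZ : FT False Z) (hU : FT False U) (ht : IsTriple i j) :
    ∃ τ : ℝ, ∀ s : ℂ, τ < s.re → zeta X.left s = zeta Z.left s * zeta U.left s ∧
      zeta Z.left s ≠ 0 ∧ zeta U.left s ≠ 0 := by
  obtain ⟨C, k, b1⟩ := ft_bounded hX
  obtain ⟨C', k', b2⟩ := ft_bounded hZ
  obtain ⟨C'', k'', b3⟩ := ft_bounded hU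
  refine ⟨max ((k : ℝ) + 1) (max ((k' : ℝ) + 1) ((k'' : ℝ) + 1)), fun s hs => ?_⟩
  have c1 : (k : ℝ) + 1 < s.re := lt_of_le_of_lt (le_max_left _ _) hs
  have c2 : (k' : ℝ) + 1 < s.re :=
    lt_of_le_of_lt ((le_max_left _ _).trans (le_max_right _ _)) hs
  have c3 : (k'' : ℝ) + 1 < s.re :=
    lt_of_le_of_lt ((le_max_right _ _).trans (le_max_right _ _)) hs
  rw [ft_zeta hX b1 c1, ft_zeta hZ b2 c2, ft_zeta hU b3 c3, ← Complex.exp_add]
  refine ⟨?_, Complex.exp_ne_zero _, Complex.exp_ne_zero _⟩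
  congr 1
  have h1 : (fun m => (cf (nm X.left) m : ℂ)) =
      (fun m => (cf (nm Z.left) m : ℂ)) + fun m => (cf (nm U.left) m : ℂ) := by
    funext m
    have := cf_add b1 b2 b3 (fun K _ _ => by
      have := (b1 K).1
      exact (card_triple ht K).2.2) m
    rw [this, Pi.add_apply]
    push_cast
    rfl
  rw [lz, h1, LSeries_add (lz_summable b2 c2) (lz_summable b3 c3)]
  rfl

section jou

variable {B : Type} [CommRing B] [Algebra ℤ B] [Algebra.FiniteType ℤ B] {m : ℕ} (f : Fin m → B)
  {U : Sch ℤ} {j : U ⟶ aff ℤ B}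

omit [Algebra.FiniteType ℤ B] in
/-- Points of the complement of `f = 0`. -/
lemma card_open (hj : IsOpenImmersion j.left)
    (hr : Set.range j.left = {x : PrimeSpectrum B | ∃ l, f l ∉ x.asIdeal}) (K : Type) [Field K] :
    Nat.card (Pt U.left K) = Nat.card {φ : B →+* K // ∃ l, φ (f l) ≠ 0} := by
  have e2 := ptEmb j.left K j.left.isOpenEmbedding.injective (fun y => res_open j.left y)
  rw [Nat.card_congr e2]
  refine Nat.card_congr ((ptAff B K).subtypeEquiv fun P => ?_)
  change P.1 ∈ Set.range j.left ↔ _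
  rw [hr]
  change (∃ l, f l ∉ (show PrimeSpectrum B from P.1).asIdeal) ↔ _
  refine exists_congr fun l => not_congr ?_
  exact mem_ptAff B K P (f l)

lemma zeta_jou (hU : FT False U) (hj : IsOpenImmersion j.left)
    (hr : Set.range j.left = {x : PrimeSpectrum B | ∃ l, f l ∉ x.asIdeal}) :
    ∃ τ : ℝ, ∀ s : ℂ, τ < s.re →
      zeta (aff ℤ (Jou f)).left s = zeta U.left (s + ((1 - m : ℤ) : ℂ)) := by
  have hJ : FT False (aff ℤ (Jou f)) := ft_aff False
  obtain ⟨C, k, b1⟩ := ft_bounded hJ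
  obtain ⟨C', k', b2⟩ := ft_bounded hU
  refine ⟨max ((k : ℝ) + 1) ((k' : ℝ) + 1 + m), fun s hs => ?_⟩
  have c1 : (k : ℝ) + 1 < s.re := lt_of_le_of_lt (le_max_left _ _) hs
  have c2 : (k' : ℝ) + 1 < (s + ((1 - m : ℤ) : ℂ)).re := by
    have := lt_of_le_of_lt (le_max_right _ _) hs
    rw [Complex.add_re, Complex.intCast_re]
    push_cast
    linarith
  rw [ft_zeta hJ b1 c1, ft_zeta hU b2 c2]
  congr 1
  have h1 : (fun n => (cf (nm (aff ℤ (Jou f)).left) n : ℂ)) =
      fun n : ℕ => ((n : ℂ) ^ ((m : ℤ) - 1)) * (cf (nm U.left) n : ℂ) := by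
    funext n
    have := cf_congr b1 b2 (fun n : ℕ => (n : ℝ) ^ ((m : ℤ) - 1)) (fun K _ _ => by
      obtain ⟨n0, hB⟩ := bound_ring B
      have := (hB K).1
      have h2 := card_jou f K
      have h3 : Nat.card (Pt (aff ℤ (Jou f)).left K) = Nat.card (Jou f →+* K) :=
        Nat.card_congr (ptAff (Jou f) K)
      rw [h3, card_open f hj hr K]
      have h4 : (Nat.card K : ℝ) ≠ 0 := by
        exact_mod_cast (Nat.card_pos (α := K)).ne'
      have h5 : (Nat.card K : ℝ) * Nat.card (Jou f →+* K) =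
          (Nat.card K : ℝ) ^ m * Nat.card {φ : B →+* K // ∃ l, φ (f l) ≠ 0} := by
        exact_mod_cast h2
      rw [zpow_sub₀ h4, zpow_natCast, zpow_one]
      field_simp
      linarith) n
    rw [this]
    push_cast
    rfl
  rw [lz, h1, lseries_shift, lz]
  congr 1
  push_cast
  ring

end jou

section torus

variable (B : Type) [CommRing B] [Algebra ℤ B] [Algebra.FiniteType ℤ B]

instance laurent_ft : Algebra.FiniteType ℤ (LaurentPolynomial B) :=
  Algebra.FiniteType.trans (S := B) inferInstance inferInstance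

lemma zeta_torus : ∃ τ : ℝ, (∀ s : ℂ, τ < s.re → MeromorphicAt (zeta (aff ℤ B).left) s) ∧
    ∀ s : ℂ, τ < s.re → zeta (aff ℤ B).left (s - 1) =
      zeta (aff ℤ (LaurentPolynomial B)).left s * zeta (aff ℤ B).left s := by
  have hL : FT False (aff ℤ (LaurentPolynomial B)) := ft_aff False
  have hB : FT False (aff ℤ B) := ft_aff False
  obtain ⟨C, k, b1⟩ := ft_bounded hL
  obtain ⟨C', k', b2⟩ := ft_bounded hB
  refine ⟨max ((k : ℝ) + 1) ((k' : ℝ) + 1 + 1), fun s hs => ?_, fun s hs => ?_⟩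
  · have c2 : (k' : ℝ) + 1 < s.re := by
      have := lt_of_le_of_lt (le_max_right _ _) hs
      linarith
    have h1 : AnalyticAt ℂ (fun s => Complex.exp (lz (aff ℤ B).left s)) s := (lz_analytic b2 c2).cexp
    refine h1.meromorphicAt.congr ?_
    refine Filter.Eventually.filter_mono nhdsWithin_le_nhds ?_
    have hev : ∀ᶠ z : ℂ in 𝓝 s, (k' : ℝ) + 1 < z.re :=
      (Complex.continuous_re.tendsto s).eventually (lt_mem_nhds c2)
    filter_upwards [hev] with z hz
    exact (ft_zeta hB b2 hz).symm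
  · have c1 : (k : ℝ) + 1 < s.re := lt_of_le_of_lt (le_max_left _ _) hs
    have c2 : (k' : ℝ) + 1 < (s - 1).re := by
      have := lt_of_le_of_lt (le_max_right _ _) hs
      rw [Complex.sub_re, Complex.one_re]
      linarith
    have c3 : (k' : ℝ) + 1 < s.re := by
      have := lt_of_le_of_lt (le_max_right _ _) hs
      linarith
    rw [ft_zeta hL b1 c1, ft_zeta hB b2 c2, ft_zeta hB b2 c3, ← Complex.exp_add]
    congr 1
    have h1 : (fun n => (cf (nm (aff ℤ (LaurentPolynomial B)).left) n : ℂ)) =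
        (fun n : ℕ => ((n : ℂ) ^ (1 : ℤ)) * (cf (nm (aff ℤ B).left) n : ℂ)) -
          fun n => (cf (nm (aff ℤ B).left) n : ℂ) := by
      funext n
      have := cf_congr b1 b2 (fun n : ℕ => (n : ℝ) - 1) (fun K _ _ => by
        have h2 := card_laurent B K
        have h3 : Nat.card (Pt (aff ℤ (LaurentPolynomial B)).left K) =
          Nat.card (LaurentPolynomial B →+* K) := Nat.card_congr (ptAff (LaurentPolynomial B) K)
        have h4 : Nat.card (Pt (aff ℤ B).left K) = Nat.card (B →+* K) :=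
          Nat.card_congr (ptAff B K)
        rw [h3, h4, h2]
        have h5 : 1 ≤ Nat.card K := Nat.card_pos
        push_cast [Nat.cast_sub h5]
        ring) n
      rw [this, Pi.sub_apply, zpow_one]
      push_cast
      ring
    have h6 : LSeriesSummable (fun n : ℕ => ((n : ℂ) ^ (1 : ℤ)) * (cf (nm (aff ℤ B).left) n : ℂ))
        s := by
      have h7 := lz_summable b2 c2
      refine Summable.congr h7 fun n => ?_
      rw [LSeries.term_def, LSeries.term_def]
      split_ifs with h
      · rfl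
      · have hm : (n : ℂ) ≠ 0 := by exact_mod_cast h
        rw [Complex.cpow_sub _ _ hm, Complex.cpow_one, zpow_one]
        field_simp
    rw [lz, lz, h1, LSeries_sub h6 (lz_summable b2 c3), lseries_shift]
    rw [lz]
    push_cast
    ring

end torus

end Pool.Agent.Q193.Zeta
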