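import Pool.Agent.Q193.Zeta.Geom

/-!
# Numbers of points: affine bundles, tori, affine spaces
-/

set_option autoImplicit false

open CategoryTheory AlgebraicGeometry Pool.Agent.Y116.UV

namespace Pool.Agent.Q193.Zeta

lemma finite_hom_fin (B K : Type) [CommRing B] [Field K] [Finite B] [Finite K] :
    Finite (B →+* K) :=
  Finite.of_injective (fun f => (f : B → K)) DFunLike.coe_injective

section plane

variable {K : Type} [Field K] [Finite K] {m : ℕ}

/-- Solutions of a linear equation. -/
lemma card_plane (v : Fin m → K) (hv : ∃ l, v l ≠ 0) :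
    Nat.card K * Nat.card {y : Fin m → K // ∑ l, v l * y l = 1} = Nat.card K ^ m := by
  classical
  let L : (Fin m → K) → K := fun y => ∑ l, v l * y l
  have hL : ∀ y z, L (y + z) = L y + L z := by
    intro y z
    simp only [L, Pi.add_apply, mul_add, Finset.sum_add_distrib]
  have hsurj : ∀ c, ∃ u, L u = c := by
    intro c
    obtain ⟨l, hl⟩ := hv
    refine ⟨Pi.single l ((v l)⁻¹ * c), ?_⟩
    simp only [L]
    rw [Finset.sum_eq_single l]
    · rw [Pi.single_eq_same, mul_inv_cancel_left₀ hl]
    · intro b _ hb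
      rw [Pi.single_eq_of_ne hb, mul_zero]
    · intro h
      exact absurd (Finset.mem_univ l) h
  have he : ∀ c, Nat.card {y : Fin m → K // L y = c} = Nat.card {y : Fin m → K // L y = 1} := by
    intro c
    obtain ⟨u, hu⟩ := hsurj (1 - c)
    refine Nat.card_congr
      { toFun := fun y => ⟨y.1 + u, by rw [hL, y.2, hu]; ring⟩
        invFun := fun y => ⟨y.1 - u, by
          have h := hL (y.1 - u) u
          rw [sub_add_cancel, y.2, hu] at h
          linear_combination -h⟩
        left_inv := fun y => Subtype.ext (by simp)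
        right_inv := fun y => Subtype.ext (by simp) }
  have : Fintype K := Fintype.ofFinite K
  have h1 := Nat.card_congr (Equiv.sigmaFiberEquiv L)
  rw [Nat.card_sigma] at h1
  rw [Finset.sum_congr rfl (fun c _ => he c), Finset.sum_const, Finset.card_univ, smul_eq_mul,
    ← Nat.card_eq_fintype_card, Nat.card_fun, Nat.card_eq_fintype_card (α := Fin m),
    Fintype.card_fin] at h1
  exact h1

end plane

section jou

variable {B : Type} [CommRing B] {m : ℕ} (f : Fin m → B) (K : Type) [Field K]

open MvPolynomial in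
lemma jou_zero (φ : B →+* K) (y : Fin m → K) (h : ∑ l, φ (f l) * y l = 1)
    (a : MvPolynomial (Fin m) B) (ha : a ∈ Ideal.span {∑ l, C (f l) * X l - 1}) :
    eval₂Hom φ y a = 0 := by
  rw [Ideal.mem_span_singleton] at ha
  obtain ⟨b, rfl⟩ := ha
  rw [map_mul, map_sub, map_one, map_sum]
  have h1 : ∑ l, (eval₂Hom φ y) (C (f l) * X l) = 1 := by
    rw [← h]
    refine Finset.sum_congr rfl fun l _ => ?_
    rw [map_mul, eval₂Hom_C, eval₂Hom_X']
  rw [h1, sub_self, zero_mul]

open MvPolynomial in
/-- The homomorphism of a solution. -/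
noncomputable def jouLift (φ : B →+* K) (y : Fin m → K) (h : ∑ l, φ (f l) * y l = 1) :
    Jou f →+* K := Ideal.Quotient.lift _ (eval₂Hom φ y) (jou_zero f K φ y h)

open MvPolynomial in
lemma jouLift_C (φ : B →+* K) (y : Fin m → K) (h : ∑ l, φ (f l) * y l = 1) :
    ((jouLift f K φ y h).comp (Ideal.Quotient.mk _)).comp C = φ := by
  ext r
  simp [jouLift]

open MvPolynomial in
lemma jouLift_X (φ : B →+* K) (y : Fin m → K) (h : ∑ l, φ (f l) * y l = 1) (l : Fin m) :
    jouLift f K φ y h (Ideal.Quotient.mk _ (X l)) = y l := by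
  simp [jouLift]

open MvPolynomial in
lemma jou_sol (ψ : Jou f →+* K) : ∑ l, ((ψ.comp (Ideal.Quotient.mk _)).comp C) (f l) *
    ψ (Ideal.Quotient.mk _ (X l)) = 1 := by
  have h : (Ideal.Quotient.mk (Ideal.span {∑ l, C (f l) * X l - 1}) (∑ l, C (f l) * X l - 1) :
      Jou f) = 0 := Ideal.Quotient.eq_zero_iff_mem.mpr (Ideal.subset_span rfl)
  have h1 := congrArg ψ h
  rw [map_zero, map_sub, map_sub, map_one, map_one, map_sum, map_sum, sub_eq_zero] at h1
  rw [← h1]
  refine Finset.sum_congr rfl fun l _ => ?_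
  rw [map_mul, map_mul]
  rfl

open MvPolynomial in
/-- Homomorphisms from `B[w] / (∑ f_l w_l - 1)`. -/
noncomputable def jouHom : (Jou f →+* K) ≃
    Σ φ : B →+* K, {y : Fin m → K // ∑ l, φ (f l) * y l = 1} where
  toFun ψ := ⟨(ψ.comp (Ideal.Quotient.mk _)).comp C, fun l => ψ (Ideal.Quotient.mk _ (X l)),
    jou_sol f K ψ⟩
  invFun x := jouLift f K x.1 x.2.1 x.2.2
  left_inv ψ := by
    refine Ideal.Quotient.ringHom_ext (MvPolynomial.ringHom_ext (fun r => ?_) fun l => ?_)
    · exact congrArg (fun χ : B →+* K => χ r) (jouLift_C f K _ _ (jou_sol f K ψ))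
    · exact jouLift_X f K _ _ (jou_sol f K ψ) l
  right_inv x := by
    obtain ⟨φ, y, h⟩ := x
    have h1 := jouLift_C f K φ y h
    refine Sigma.ext h1 ?_
    refine (Subtype.heq_iff_coe_eq ?_).mpr ?_
    · intro z
      change ∑ l, (((jouLift f K φ y h).comp _).comp C) (f l) * z l = 1 ↔ _
      rw [h1]
    · funext l
      exact jouLift_X f K φ y h l

variable [Finite K] [Finite (B →+* K)]

lemma finite_jou : Finite (Jou f →+* K) := Finite.of_equiv _ (jouHom f K).symm

lemma card_jou : Nat.card K * Nat.card (Jou f →+* K) =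
    Nat.card K ^ m * Nat.card {φ : B →+* K // ∃ l, φ (f l) ≠ 0} := by
  classical
  have : Fintype (B →+* K) := Fintype.ofFinite _
  rw [Nat.card_congr (jouHom f K), Nat.card_sigma, Finset.mul_sum]
  have h1 : ∀ φ : B →+* K, Nat.card K * Nat.card {y : Fin m → K // ∑ l, φ (f l) * y l = 1} =
      if ∃ l, φ (f l) ≠ 0 then Nat.card K ^ m else 0 := by
    intro φ
    split_ifs with h
    · exact card_plane (fun l => φ (f l)) h
    · push Not at h
      have : IsEmpty {y : Fin m → K // ∑ l, φ (f l) * y l = 1} := ⟨fun y => by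
        have h2 := y.2
        simp only [h, zero_mul, Finset.sum_const_zero] at h2
        exact zero_ne_one h2⟩
      rw [Nat.card_of_isEmpty (α := {y : Fin m → K // ∑ l, φ (f l) * y l = 1}), mul_zero]
  rw [Finset.sum_congr rfl fun φ _ => h1 φ, ← Finset.sum_filter, Finset.sum_const, smul_eq_mul,
    mul_comm, Nat.card_eq_fintype_card (α := {φ : B →+* K // ∃ l, φ (f l) ≠ 0}),
    Fintype.card_subtype]

end jou

section laurent

variable (B K : Type) [CommRing B] [Field K]

/-- The unit `T`. -/
noncomputable def tU : (LaurentPolynomial B)ˣ where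
  val := LaurentPolynomial.T 1
  inv := LaurentPolynomial.T (-1)
  val_inv := by rw [← LaurentPolynomial.T_add]; simp
  inv_val := by rw [← LaurentPolynomial.T_add]; simp

lemma tU_zpow (n : ℤ) : ((tU B ^ n : (LaurentPolynomial B)ˣ) : LaurentPolynomial B) =
    LaurentPolynomial.T n := by
  induction n using Int.induction_on with
  | zero => simp
  | succ n ih => rw [zpow_add_one, Units.val_mul, ih, LaurentPolynomial.T_add]; rfl
  | pred n ih =>
    rw [zpow_sub_one, Units.val_mul, ih, sub_eq_add_neg, LaurentPolynomial.T_add]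
    rfl

/-- Homomorphisms from the ring of Laurent polynomials. -/
noncomputable def laurentHom : (LaurentPolynomial B →+* K) ≃ (B →+* K) × Kˣ where
  toFun ψ := (ψ.comp LaurentPolynomial.C, Units.map (ψ : LaurentPolynomial B →* K) (tU B))
  invFun x := LaurentPolynomial.eval₂ x.1 x.2
  left_inv ψ := by
    refine RingHom.ext fun p => ?_
    induction p using LaurentPolynomial.induction_on' with
    | add p q hp hq => rw [map_add, map_add, hp, hq]
    | C_mul_T n a =>
      rw [map_mul, map_mul, LaurentPolynomial.eval₂_C, LaurentPolynomial.eval₂_T, ← map_zpow,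
        Units.coe_map, tU_zpow]
      rfl
  right_inv x := by
    refine Prod.ext (RingHom.ext fun r => ?_) (Units.ext ?_)
    · simp
    · change LaurentPolynomial.eval₂ x.1 x.2 (LaurentPolynomial.T 1) = _
      rw [LaurentPolynomial.eval₂_T, zpow_one]

variable [Finite K] [Finite (B →+* K)]

lemma finite_laurent : Finite (LaurentPolynomial B →+* K) :=
  Finite.of_equiv _ (laurentHom B K).symm

omit [Finite K] [Finite (B →+* K)] in
lemma card_laurent : Nat.card (LaurentPolynomial B →+* K) =
    Nat.card (B →+* K) * (Nat.card K - 1) := by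
  rw [Nat.card_congr (laurentHom B K), Nat.card_prod, Nat.card_units]

end laurent

section space

variable (n : ℕ) (K : Type) [Field K]

/-- Homomorphisms from the polynomial ring. -/
noncomputable def polyHom : (MvPolynomial (Fin n) ℤ →+* K) ≃ (Fin n → K) where
  toFun ψ := fun i => ψ (MvPolynomial.X i)
  invFun y := MvPolynomial.eval₂Hom (Int.castRingHom K) y
  left_inv ψ := by
    refine MvPolynomial.ringHom_ext (fun r => ?_) fun l => ?_
    · simp
    · simp
  right_inv y := by
    funext l
    simp

variable [Finite K]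

omit [Finite K] in
lemma card_poly : Nat.card (MvPolynomial (Fin n) ℤ →+* K) = Nat.card K ^ n := by
  rw [Nat.card_congr (polyHom n K), Nat.card_fun, Nat.card_eq_fintype_card (α := Fin n),
    Fintype.card_fin]

lemma finite_poly : Finite (MvPolynomial (Fin n) ℤ →+* K) := Finite.of_equiv _ (polyHom n K).symm

end space

/-- Rings of finite type over `ℤ` have few points. -/
lemma bound_ring (B : Type) [CommRing B] [Algebra ℤ B] [Algebra.FiniteType ℤ B] :
    ∃ n : ℕ, ∀ (K : Type) [Field K] [Finite K],
      Finite (B →+* K) ∧ Nat.card (B →+* K) ≤ Nat.card K ^ n := by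
  obtain ⟨n, g, hg⟩ := Algebra.FiniteType.iff_quotient_mvPolynomial''.mp ‹Algebra.FiniteType ℤ B›
  refine ⟨n, fun K _ _ => ?_⟩
  have hf := finite_poly n K
  have hi : Function.Injective fun φ : B →+* K => φ.comp (g : MvPolynomial (Fin n) ℤ →+* B) := by
    intro φ φ' h
    refine RingHom.ext fun b => ?_
    obtain ⟨a, rfl⟩ := hg b
    exact congrArg (fun χ : MvPolynomial (Fin n) ℤ →+* K => χ a) h
  refine ⟨Finite.of_injective _ hi, ?_⟩
  rw [← card_poly n K]
  exact Nat.card_le_card_of_injective _ hi

end Pool.Agent.Q193.Zeta
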