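import Pool.Agent.Q193.Zeta.Euler

/-!
# Points over finite fields and closed points
-/

set_option autoImplicit false

open CategoryTheory AlgebraicGeometry

namespace Pool.Agent.Q193.Zeta

section fields

variable {k K : Type} [Field k] [Field K]

lemma card_pow_of_hom [Finite K] (f : k →+* K) : ∃ e, Nat.card k ^ (e + 1) = Nat.card K := by
  algebraize [f]
  have h1 : Module.finrank k K ≠ 0 := Module.finrank_pos.ne'
  refine ⟨Module.finrank k K - 1, ?_⟩
  rw [Nat.sub_add_cancel (Nat.one_le_iff_ne_zero.mpr h1), ← Module.natCard_eq_pow_finrank]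

lemma finite_of_hom [Finite K] (f : k →+* K) : Finite k := Finite.of_injective f f.injective

/-- The number of embeddings of finite fields. -/
lemma card_hom [Finite k] [Finite K] {p n e : ℕ} (hp : p.Prime) (hK : Nat.card K = p ^ n)
    (he : Nat.card k ^ (e + 1) = Nat.card K) : (e + 1) * Nat.card (k →+* K) = n := by
  have : Fact p.Prime := ⟨hp⟩
  have hn : n ≠ 0 := by
    rintro rfl
    rw [pow_zero] at hK
    exact absurd hK Finite.one_lt_card.ne'
  have hcK : CharP K p := by
    obtain ⟨q, hq⟩ := CharP.exists K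
    have : Fintype K := Fintype.ofFinite K
    obtain ⟨a, hq1, hq2⟩ := FiniteField.card K q
    rw [← Nat.card_eq_fintype_card, hK] at hq2
    have h1 : p = q := by
      have h2 : p ∣ q ^ (a : ℕ) := by rw [← hq2]; exact dvd_pow_self _ hn
      exact (Nat.prime_dvd_prime_iff_eq hp hq1).mp (hp.dvd_of_dvd_pow h2)
    rw [h1]
    exact hq
  have hck : CharP k p := by
    obtain ⟨q, hq⟩ := CharP.exists k
    have : Fintype k := Fintype.ofFinite k
    obtain ⟨a, hq1, hq2⟩ := FiniteField.card k q
    rw [hK, Nat.card_eq_fintype_card, hq2] at he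
    have h1 : p = q := by
      have h2 : p ∣ q ^ (a : ℕ) := by
        have h3 : p ∣ (q ^ (a : ℕ)) ^ (e + 1) := by rw [he]; exact dvd_pow_self _ hn
        exact hp.dvd_of_dvd_pow h3
      exact (Nat.prime_dvd_prime_iff_eq hp hq1).mp (hp.dvd_of_dvd_pow h2)
    rw [h1]
    exact hq
  let : Algebra (ZMod p) k := ZMod.algebra k p
  let : Algebra (ZMod p) K := ZMod.algebra K p
  have h1 := FiniteField.pow_finrank_eq_natCard p k
  have h2 := FiniteField.pow_finrank_eq_natCard p K
  have h3 : Module.finrank (ZMod p) K = n := by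
    rw [hK] at h2
    exact Nat.pow_right_injective hp.two_le h2
  have h4 : Module.finrank (ZMod p) k * (e + 1) = Module.finrank (ZMod p) K := by
    rw [← h1, ← h2, ← pow_mul] at he
    exact Nat.pow_right_injective hp.two_le he
  have h5 := FiniteField.natCard_algHom_of_finrank_dvd (F := ZMod p) (K := k) (L := K)
    ⟨e + 1, h4.symm⟩
  have h6 : Nat.card (k →+* K) = Nat.card (k →ₐ[ZMod p] K) := by
    refine Nat.card_congr
      { toFun := fun f => { f with commutes' := fun r => ?_ }
        invFun := fun f => f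
        left_inv := fun f => rfl
        right_inv := fun f => rfl }
    exact congrArg (fun g : ZMod p →+* K => g r)
      (Subsingleton.elim (f.comp (algebraMap (ZMod p) k)) (algebraMap (ZMod p) K))
  rw [h6, h5, mul_comm, h4, h3]

end fields

/-- The points of `S` with values in the field `K`. -/
abbrev Pt (S : Scheme.{0}) (K : Type) [Field K] : Type :=
  Σ x : S, (S.residueField x ⟶ CommRingCat.of K)

/-- The points with a finite residue field. -/
abbrev FP (S : Scheme.{0}) : Type := {x : S // Finite (S.residueField x)}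

/-- The cardinality of the residue field. -/
noncomputable def nm (S : Scheme.{0}) (x : FP S) : ℕ := Nat.card (S.residueField x.1)

lemma one_lt_nm (S : Scheme.{0}) (x : FP S) : 1 < nm S x := by
  have := x.2
  exact Finite.one_lt_card

/-- The exponent. -/
abbrev Ex (S : Scheme.{0}) (m : ℕ) : Type := {x : FP S // ∃ e, nm S x ^ (e + 1) = m}

lemma fib_equiv_aux (S : Scheme.{0}) (m : ℕ) (x : Ex S m) (e e' : ℕ)
    (h : nm S x.1 ^ (e + 1) = m) (h' : nm S x.1 ^ (e' + 1) = m) : e = e' := by
  have h1 := Nat.pow_right_injective (one_lt_nm S x.1) (h.trans h'.symm)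
  omega

/-- The pairs `(x, e)` with `nm x ^ (e + 1) = m`. -/
noncomputable def fibEquiv (S : Scheme.{0}) (m : ℕ) : Ex S m ≃ Fib (nm S) m where
  toFun x := ⟨(x.1, x.2.choose), x.2.choose_spec⟩
  invFun j := ⟨j.1.1, j.1.2, j.2⟩
  left_inv x := rfl
  right_inv j := by
    obtain ⟨⟨x, e⟩, h⟩ := j
    refine Subtype.ext (Prod.ext rfl ?_)
    exact fib_equiv_aux S m ⟨x, e, h⟩ _ _ (Exists.choose_spec (⟨e, h⟩ : ∃ e, nm S x ^ (e + 1) = m)) h

/-- ring homs -/
noncomputable def homE (S : Scheme.{0}) (K : Type) [Field K] (x : S) :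
    (S.residueField x ⟶ CommRingCat.of K) ≃ (S.residueField x →+* K) where
  toFun f := f.hom
  invFun f := CommRingCat.ofHom f
  left_inv _ := rfl
  right_inv _ := rfl

variable (S : Scheme.{0}) (K : Type) [Field K] [Finite K]

/-- Points with values in a finite field. -/
noncomputable def ptEquiv :
    Pt S K ≃ Σ x : Ex S (Nat.card K), (S.residueField x.1.1 ⟶ CommRingCat.of K) where
  toFun P := ⟨⟨⟨P.1, finite_of_hom P.2.hom⟩, card_pow_of_hom P.2.hom⟩, P.2⟩
  invFun P := ⟨P.1.1.1, P.2⟩
  left_inv _ := rfl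
  right_inv _ := rfl

variable {p n : ℕ} (hp : p.Prime) (hK : Nat.card K = p ^ n)

include hp hK

lemma nonempty_of_ex (x : Ex S (Nat.card K)) :
    Nonempty (S.residueField x.1.1 ⟶ CommRingCat.of K) := by
  have := x.1.2
  obtain ⟨e, he⟩ := x.2
  have h1 := card_hom (k := S.residueField x.1.1) (K := K) hp hK he
  have hn : n ≠ 0 := by
    rintro rfl
    rw [pow_zero] at hK
    exact absurd hK Finite.one_lt_card.ne'
  have h2 : Nat.card (S.residueField x.1.1 →+* K) ≠ 0 := by
    intro h3
    rw [h3, mul_zero] at h1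
    exact hn h1.symm
  exact ⟨CommRingCat.ofHom (Nat.card_ne_zero.mp h2).1.some⟩

lemma finite_ex [Finite (Pt S K)] : Finite (Ex S (Nat.card K)) := by
  have h := fun x => nonempty_of_ex S K hp hK x
  refine Finite.of_injective
    (fun x => (ptEquiv S K).symm ⟨x, (h x).some⟩ : Ex S (Nat.card K) → Pt S K) ?_
  intro x y hxy
  exact congrArg Sigma.fst ((ptEquiv S K).symm.injective hxy)

lemma finite_fib [Finite (Pt S K)] : Finite (Fib (nm S) (Nat.card K)) := by
  have := finite_ex S K hp hK
  exact Finite.of_equiv _ (fibEquiv S (Nat.card K))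

/-- The number of points and the coefficients of the Dirichlet series. -/
theorem card_pt [Finite (Pt S K)] :
    (n : ℝ) * cf (nm S) (Nat.card K) = Nat.card (Pt S K) := by
  have h0 := finite_ex S K hp hK
  have : Fintype (Ex S (Nat.card K)) := Fintype.ofFinite _
  have h1 : ∀ x : Ex S (Nat.card K), Finite (S.residueField x.1.1 ⟶ CommRingCat.of K) := by
    intro x
    have := x.1.2
    have : Finite (S.residueField x.1.1 →+* K) :=
      Finite.of_injective (fun f => (f : S.residueField x.1.1 → K)) DFunLike.coe_injective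
    exact Finite.of_equiv _ (homE S K x.1.1).symm
  rw [Nat.card_congr (ptEquiv S K), Nat.card_sigma]
  rw [cf, ← (fibEquiv S (Nat.card K)).tsum_eq, tsum_fintype, Finset.mul_sum]
  push_cast
  refine Finset.sum_congr rfl fun x _ => ?_
  have hx := x.1.2
  have h2 := card_hom (k := S.residueField x.1.1) (K := K) hp hK x.2.choose_spec
  rw [Nat.card_congr (homE S K x.1.1)]
  change (n : ℝ) * ((x.2.choose : ℝ) + 1)⁻¹ = _
  have h3 : (n : ℝ) = ((x.2.choose : ℝ) + 1) * Nat.card (S.residueField x.1.1 →+* K) := by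
    exact_mod_cast h2.symm
  rw [h3]
  field_simp

end Pool.Agent.Q193.Zeta
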