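import Mathlib

/-!
# Functions on half-planes with a meromorphic continuation
-/

set_option autoImplicit false

open Complex Filter Topology

namespace Pool.Agent.Q193.Zeta

/-- In some half-plane `Re(s) > σ` the function `Z` agrees with a function that is meromorphic on all of
`ℂ`. -/
def HasCont (Z : ℂ → ℂ) : Prop :=
  ∃ F : ℂ → ℂ, MeromorphicOn F Set.univ ∧ ∃ σ : ℝ, ∀ s : ℂ, σ < s.re → F s = Z s

lemma mero_shift {F : ℂ → ℂ} (a z : ℂ) (h : MeromorphicAt F (z + a)) :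
    MeromorphicAt (fun s => F (s + a)) z :=
  MeromorphicAt.comp_analyticAt (f := F) (g := fun s => s + a) (x := z) h (by fun_prop)

lemma HasCont.congr {Z W : ℂ → ℂ} (h : HasCont Z) {τ : ℝ} (e : ∀ s : ℂ, τ < s.re → Z s = W s) :
    HasCont W := by
  obtain ⟨F, hF, σ, h⟩ := h
  exact ⟨F, hF, max σ τ, fun s hs => (h s (lt_of_le_of_lt (le_max_left _ _) hs)).trans
    (e s (lt_of_le_of_lt (le_max_right _ _) hs))⟩

lemma HasCont.mul {Z W : ℂ → ℂ} (hZ : HasCont Z) (hW : HasCont W) : HasCont (fun s => Z s * W s) := by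
  obtain ⟨F, hF, σ, h⟩ := hZ
  obtain ⟨G, hG, τ, h'⟩ := hW
  refine ⟨fun s => F s * G s, hF.mul hG, max σ τ, fun s hs => ?_⟩
  beta_reduce
  rw [h s (lt_of_le_of_lt (le_max_left _ _) hs), h' s (lt_of_le_of_lt (le_max_right _ _) hs)]

lemma HasCont.inv {Z : ℂ → ℂ} (hZ : HasCont Z) : HasCont (fun s => (Z s)⁻¹) := by
  obtain ⟨F, hF, σ, h⟩ := hZ
  refine ⟨fun s => (F s)⁻¹, hF.inv, σ, fun s hs => ?_⟩
  beta_reduce
  rw [h s hs]

lemma HasCont.shift {Z : ℂ → ℂ} (hZ : HasCont Z) (n : ℤ) : HasCont (fun s => Z (s + n)) := by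
  obtain ⟨F, hF, σ, h⟩ := hZ
  refine ⟨fun s => F (s + n), fun z _ => mero_shift _ _ (hF _ trivial), σ - n, fun s hs => ?_⟩
  exact h _ (by rw [Complex.add_re, Complex.intCast_re]; linarith)

lemma HasCont.of_shift {Z : ℂ → ℂ} (n : ℤ) (h : HasCont (fun s => Z (s + n))) : HasCont Z := by
  refine (h.shift (-n)).congr (τ := 0) fun s _ => ?_
  beta_reduce
  congr 1
  push_cast
  ring

section torus

variable (F Z : ℂ → ℂ)

/-- `Z (s + N) ∏_{j < N} F (s + j + 1)` -/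
noncomputable def hN (N : ℕ) (s : ℂ) : ℂ := Z (s + N) * ∏ j ∈ Finset.range N, F (s + (j + 1 : ℕ))

variable {F Z}

lemma hN_succ {σ : ℝ} (h : ∀ s : ℂ, σ < s.re → Z (s - 1) = F s * Z s) (N : ℕ) (s : ℂ)
    (hs : σ < s.re + N + 1) : hN F Z (N + 1) s = hN F Z N s := by
  rw [hN, hN, Finset.prod_range_succ]
  have h1 := h (s + (N + 1 : ℕ)) (by
    rw [Complex.add_re, Complex.natCast_re]
    push_cast
    linarith)
  have h2 : s + ((N + 1 : ℕ) : ℂ) - 1 = s + N := by push_cast; ring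
  rw [h2] at h1
  rw [h1]
  ring

lemma hN_eq {σ : ℝ} (h : ∀ s : ℂ, σ < s.re → Z (s - 1) = F s * Z s) {n N : ℕ} (hn : n ≤ N) (s : ℂ)
    (hs : σ < s.re + n + 1) : hN F Z N s = hN F Z n s := by
  induction N, hn using Nat.le_induction with
  | base => rfl
  | succ N hN' ih =>
    rw [hN_succ h N s, ih]
    have : (n : ℝ) ≤ N := by exact_mod_cast hN'
    linarith

/-- If `Z (s - 1) = W s * Z s` and `W` has a meromorphic continuation, then `Z` has. -/
theorem HasCont.of_torus {W : ℂ → ℂ} (hW : HasCont W) {τ : ℝ}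
    (hZ : ∀ s : ℂ, τ < s.re → MeromorphicAt Z s)
    (h : ∀ s : ℂ, τ < s.re → Z (s - 1) = W s * Z s) : HasCont Z := by
  obtain ⟨F, hF, σ₀, hF2⟩ := hW
  set σ : ℝ := max σ₀ τ with hσ
  have h1 : ∀ s : ℂ, σ < s.re → Z (s - 1) = F s * Z s := fun s hs => by
    rw [hF2 s (lt_of_le_of_lt (le_max_left _ _) hs)]
    exact h s (lt_of_le_of_lt (le_max_right _ _) hs)
  have h2 : ∀ s : ℂ, σ < s.re → MeromorphicAt Z s := fun s hs =>
    hZ s (lt_of_le_of_lt (le_max_right _ _) hs)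
  let n : ℂ → ℕ := fun s => ⌈σ - s.re⌉.toNat
  have hn : ∀ s, σ < s.re + n s + 1 := by
    intro s
    have a1 : σ - s.re ≤ ⌈σ - s.re⌉ := Int.le_ceil _
    have a2 : (⌈σ - s.re⌉ : ℝ) ≤ ((⌈σ - s.re⌉.toNat : ℕ) : ℝ) := by
      exact_mod_cast Int.self_le_toNat _
    change σ < s.re + ((⌈σ - s.re⌉.toNat : ℕ) : ℝ) + 1
    linarith
  refine ⟨fun s => hN F Z (n s) s, fun z _ => ?_, σ, fun s hs => ?_⟩
  · let N : ℕ := (⌈σ - z.re⌉ + 1).toNat
    have hN1 : σ < z.re + N := by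
      have a1 : σ - z.re ≤ ⌈σ - z.re⌉ := Int.le_ceil _
      have a2 : ((⌈σ - z.re⌉ + 1 : ℤ) : ℝ) ≤ ((N : ℕ) : ℝ) := by
        exact_mod_cast Int.self_le_toNat _
      push_cast at a2
      linarith
    have hm : MeromorphicAt (hN F Z N) z := by
      refine MeromorphicAt.mul (mero_shift _ _ (h2 _ ?_)) ?_
      · rw [Complex.add_re, Complex.natCast_re]
        exact hN1
      · exact MeromorphicAt.fun_prod fun j _ => mero_shift _ _ (hF _ trivial)
    refine hm.congr ?_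
    refine Filter.Eventually.filter_mono nhdsWithin_le_nhds ?_
    have hev : ∀ᶠ s : ℂ in 𝓝 z, z.re - 1 < s.re :=
      (Complex.continuous_re.tendsto z).eventually (lt_mem_nhds (by linarith))
    filter_upwards [hev] with s hs
    refine hN_eq h1 ?_ s (hn s)
    refine Int.toNat_le_toNat ?_
    rw [← Int.ceil_add_one]
    exact Int.ceil_le_ceil (by linarith)
  · have a1 : n s = 0 := by
      have : ⌈σ - s.re⌉ ≤ 0 := Int.ceil_le.mpr (by push_cast; linarith)
      exact Int.toNat_of_nonpos this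
    change hN F Z (n s) s = Z s
    rw [a1, hN]
    simp

end torus

end Pool.Agent.Q193.Zeta
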