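import Pool.Agent.Q193.Zeta.Zeta
import Pool.Agent.Q193.Zeta.Mero

/-!
# Zeta functions as exponentials of Dirichlet series
-/

set_option autoImplicit false

open CategoryTheory AlgebraicGeometry Pool.Agent.Y116.UV Complex

namespace Pool.Agent.Q193.Zeta

/-- The Euler product `∏ (1 - N(x)^{-s})⁻¹` over the closed points of the scheme `S`. -/
noncomputable def zeta (S : Scheme.{0}) (s : ℂ) : ℂ :=
  ∏' x : {x : S // IsClosed ({x} : Set S)}, (1 - ((Nat.card (S.residueField x.1) : ℂ) ^ (-s)))⁻¹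

/-- The Dirichlet series `log ζ`. -/
noncomputable def lz (S : Scheme.{0}) (s : ℂ) : ℂ := LSeries (fun m => (cf (nm S) m : ℂ)) s

lemma cf_eq_zero (S : Scheme.{0}) {m : ℕ} (hm : ¬ ∃ p n : ℕ, p.Prime ∧ n ≠ 0 ∧ m = p ^ n) :
    IsEmpty (Fib (nm S) m) := by
  refine ⟨fun j => hm ?_⟩
  obtain ⟨⟨x, e⟩, h⟩ := j
  have := x.2
  have : Fintype (S.residueField x.1) := Fintype.ofFinite _
  obtain ⟨p, _, n, h1, h2⟩ := FiniteField.card' (S.residueField x.1)
  refine ⟨p, n * (e + 1), h1, mul_ne_zero n.ne_zero (Nat.succ_ne_zero e), ?_⟩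
  rw [← h, nm, Nat.card_eq_fintype_card, h2, pow_mul]

/-- a finite field with `p ^ n` elements -/
lemma exists_field {p n : ℕ} (hp : p.Prime) (hn : n ≠ 0) :
    ∃ (K : Type) (_ : Field K) (_ : Finite K), Nat.card K = p ^ n := by
  have : Fact p.Prime := ⟨hp⟩
  have : Finite (GaloisField p n) := inferInstance
  exact ⟨GaloisField p n, inferInstance, inferInstance, GaloisField.card p n hn⟩

section

variable {S : Scheme.{0}} {C k : ℕ} (hS : Bounded S C k)

include hS

lemma finite_fib' (m : ℕ) : Finite (Fib (nm S) m) := by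
  by_cases hm : ∃ p n : ℕ, p.Prime ∧ n ≠ 0 ∧ m = p ^ n
  · obtain ⟨p, n, hp, hn, rfl⟩ := hm
    obtain ⟨K, _, _, hK⟩ := exists_field hp hn
    have := (hS K).1
    rw [← hK]
    exact finite_fib S K hp hK
  · have := cf_eq_zero S hm
    infer_instance

lemma cf_le (m : ℕ) : cf (nm S) m ≤ (C : ℝ) * (m : ℝ) ^ (((k : ℝ) + 1) - 1) := by
  rw [add_sub_cancel_right, Real.rpow_natCast]
  by_cases hm : ∃ p n : ℕ, p.Prime ∧ n ≠ 0 ∧ m = p ^ n
  · obtain ⟨p, n, hp, hn, rfl⟩ := hm
    obtain ⟨K, _, _, hK⟩ := exists_field hp hn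
    have h1 := (hS K).1
    have h2 := card_pt S K hp hK
    have h3 : (Nat.card (Pt S K) : ℝ) ≤ C * (Nat.card K : ℝ) ^ k := by exact_mod_cast (hS K).2
    rw [hK] at h2 h3
    rw [← h2] at h3
    refine le_trans ?_ h3
    have h4 : (1 : ℝ) ≤ n := by exact_mod_cast Nat.one_le_iff_ne_zero.mpr hn
    exact le_mul_of_one_le_left (cf_nonneg _ _) h4
  · have := cf_eq_zero S hm
    rw [cf, tsum_empty]
    positivity

lemma lz_summable {s : ℂ} (hs : (k : ℝ) + 1 < s.re) :
    LSeriesSummable (fun m => (cf (nm S) m : ℂ)) s :=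
  lseries_summable (fun m _ => cf_le hS m) hs

lemma zeta_eq (f : S ⟶ Spec (CommRingCat.of ℤ)) [LocallyOfFiniteType f] {s : ℂ}
    (hs : (k : ℝ) + 1 < s.re) : zeta S s = Complex.exp (lz S s) := by
  have h1 := euler (one_lt_nm S) (finite_fib' hS) (fun m _ => cf_le hS m) hs (by
    have : (0 : ℝ) ≤ k := Nat.cast_nonneg k
    linarith)
  have e : {x : S // IsClosed ({x} : Set S)} ≃ FP S :=
    Equiv.subtypeEquivRight fun x => ⟨fun h => finite_of_closed f h, fun h => closed_of_finite f h⟩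
  rw [lz, ← h1.tprod_eq]
  let e : {x : S // IsClosed ({x} : Set S)} ≃ FP S :=
    Equiv.subtypeEquivRight fun x => ⟨fun h => finite_of_closed f h, fun h => closed_of_finite f h⟩
  exact e.tprod_eq (fun x : FP S => (1 - (nm S x : ℂ) ^ (-s))⁻¹)

lemma lz_analytic {s : ℂ} (hs : (k : ℝ) + 1 < s.re) : AnalyticAt ℂ (lz S) s := by
  refine LSeries_analyticOnNhd _ s ?_
  refine lt_of_le_of_lt (LSeries.abscissaOfAbsConv_le_of_forall_lt_LSeriesSummable
    (x := (k : ℝ) + 1) ?_) ?_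
  · intro y hy
    exact lz_summable hS (by simpa using hy)
  · exact_mod_cast hs

end

/-- Two Dirichlet series with the same coefficients at prime powers. -/
lemma cf_congr {S T : Scheme.{0}} {C k C' k' : ℕ} (hS : Bounded S C k) (hT : Bounded T C' k')
    (g : ℕ → ℝ)
    (h : ∀ (K : Type) [Field K] [Finite K],
      (Nat.card (Pt S K) : ℝ) = g (Nat.card K) * Nat.card (Pt T K)) (m : ℕ) :
    cf (nm S) m = g m * cf (nm T) m := by
  by_cases hm : ∃ p n : ℕ, p.Prime ∧ n ≠ 0 ∧ m = p ^ n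
  · obtain ⟨p, n, hp, hn, rfl⟩ := hm
    obtain ⟨K, _, _, hK⟩ := exists_field hp hn
    have a1 := (hS K).1
    have b1 := (hT K).1
    have a2 := card_pt S K hp hK
    have b2 := card_pt T K hp hK
    have h1 := h K
    rw [← a2, ← b2, hK] at h1
    have h2 : (n : ℝ) ≠ 0 := by exact_mod_cast hn
    refine mul_left_cancel₀ h2 ?_
    rw [h1]
    ring
  · have h1 := cf_eq_zero S hm
    have h2 := cf_eq_zero T hm
    rw [cf, tsum_empty, cf, tsum_empty, mul_zero]

lemma cf_add {S T W : Scheme.{0}} {C k C' k' C'' k'' : ℕ} (hS : Bounded S C k)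
    (hT : Bounded T C' k') (hW : Bounded W C'' k'')
    (h : ∀ (K : Type) [Field K] [Finite K],
      Nat.card (Pt S K) = Nat.card (Pt T K) + Nat.card (Pt W K)) (m : ℕ) :
    cf (nm S) m = cf (nm T) m + cf (nm W) m := by
  by_cases hm : ∃ p n : ℕ, p.Prime ∧ n ≠ 0 ∧ m = p ^ n
  · obtain ⟨p, n, hp, hn, rfl⟩ := hm
    obtain ⟨K, _, _, hK⟩ := exists_field hp hn
    have a1 := (hS K).1
    have b1 := (hT K).1
    have c1 := (hW K).1
    have a2 := card_pt S K hp hK
    have b2 := card_pt T K hp hK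
    have c2 := card_pt W K hp hK
    have h1 : (Nat.card (Pt S K) : ℝ) = Nat.card (Pt T K) + Nat.card (Pt W K) := by
      exact_mod_cast h K
    rw [← a2, ← b2, ← c2, hK, ← mul_add] at h1
    have h2 : (n : ℝ) ≠ 0 := by exact_mod_cast hn
    exact mul_left_cancel₀ h2 h1
  · have h1 := cf_eq_zero S hm
    have h2 := cf_eq_zero T hm
    have h3 := cf_eq_zero W hm
    rw [cf, tsum_empty, cf, tsum_empty, cf, tsum_empty, add_zero]

/-- Multiplication of the coefficients by `m ^ r` shifts the Dirichlet series. -/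
lemma lseries_shift (a : ℕ → ℂ) (r : ℤ) (s : ℂ) :
    LSeries (fun m => ((m : ℂ) ^ r) * a m) s = LSeries a (s - r) := by
  unfold LSeries
  refine tsum_congr fun m => ?_
  rw [LSeries.term_def, LSeries.term_def]
  split_ifs with h
  · rfl
  · have hm : (m : ℂ) ≠ 0 := by exact_mod_cast h
    rw [Complex.cpow_sub _ _ hm, Complex.cpow_intCast]
    field_simp

end Pool.Agent.Q193.Zeta
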