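import Mathlib

/-!
# Euler products and Dirichlet series

For a family of natural numbers `N i > 1` with few members of bounded size, the Euler product
`∏ (1 - N i ^ (-s))⁻¹` is the exponential of the Dirichlet series with the coefficients
`a m = ∑_{(i, k) : N i ^ (k + 1) = m} 1 / (k + 1)`.
-/

set_option autoImplicit false

open Complex

namespace Pool.Agent.Q193.Zeta

variable {ι : Type*}

/-- The pairs `(i, k)` with `N i ^ (k + 1) = m`. -/
abbrev Fib (N : ι → ℕ) (m : ℕ) : Type _ := {j : ι × ℕ // N j.1 ^ (j.2 + 1) = m}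

/-- The coefficients `a m = ∑_{(i, k) : N i ^ (k + 1) = m} 1 / (k + 1)`. -/
noncomputable def cf (N : ι → ℕ) (m : ℕ) : ℝ := ∑' j : Fib N m, ((j.1.2 : ℝ) + 1)⁻¹

/-- The terms of the double series. -/
noncomputable def tm (N : ι → ℕ) (s : ℂ) (j : ι × ℕ) : ℂ :=
  ((N j.1 : ℂ) ^ (-s)) ^ (j.2 + 1) / ((j.2 : ℂ) + 1)

lemma tm_eq {N : ι → ℕ} (s : ℂ) (j : ι × ℕ) :
    tm N s j = (((j.2 : ℝ) + 1)⁻¹ : ℝ) * ((N j.1 ^ (j.2 + 1) : ℕ) : ℂ) ^ (-s) := by
  simp only [tm]
  rw [← Complex.cpow_nat_mul, Complex.natCast_cpow_natCast_mul, div_eq_mul_inv, mul_comm]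
  push_cast
  rfl

lemma norm_tm {N : ι → ℕ} (hN : ∀ i, 1 < N i) (s : ℂ) (j : ι × ℕ) :
    ‖tm N s j‖ = ((j.2 : ℝ) + 1)⁻¹ * ((N j.1 ^ (j.2 + 1) : ℕ) : ℝ) ^ (-s.re) := by
  have h0 : 0 < N j.1 ^ (j.2 + 1) := pow_pos (zero_lt_one.trans (hN j.1)) _
  rw [tm_eq, norm_mul, Complex.norm_natCast_cpow_of_pos h0, Complex.neg_re, Complex.norm_real,
    Real.norm_of_nonneg (by positivity)]

variable {N : ι → ℕ} (hN : ∀ i, 1 < N i) (hfin : ∀ m, Finite (Fib N m)) {C x : ℝ}
  (hC : ∀ m : ℕ, m ≠ 0 → cf N m ≤ C * (m : ℝ) ^ (x - 1))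

lemma cf_nonneg (N : ι → ℕ) (m : ℕ) : 0 ≤ cf N m := tsum_nonneg fun _ => by positivity

include hC in
lemma lseries_summable {s : ℂ} (hs : x < s.re) :
    LSeriesSummable (fun m => (cf N m : ℂ)) s :=
  LSeriesSummable_of_le_const_mul_rpow hs ⟨C, fun m hm => by
    rw [Complex.norm_real, Real.norm_of_nonneg (cf_nonneg N m)]
    exact hC m hm⟩

include hN in
lemma cf_zero : cf N 0 = 0 := by
  have : IsEmpty (Fib N 0) := ⟨fun j => by
    have := pow_pos (zero_lt_one.trans (hN j.1.1)) (j.1.2 + 1)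
    exact absurd j.2 this.ne'⟩
  exact tsum_empty

include hN hfin hC

lemma summable_tm {s : ℂ} (hs : x < s.re) : Summable (tm N s) := by
  rw [← summable_norm_iff]
  rw [← (Equiv.sigmaFiberEquiv fun j : ι × ℕ => N j.1 ^ (j.2 + 1)).summable_iff]
  refine (summable_sigma_of_nonneg (fun _ => norm_nonneg _)).mpr ⟨fun m => ?_, ?_⟩
  · have := hfin m
    exact Summable.of_finite
  · have h1 := (lseries_summable hC hs).norm
    refine (Summable.congr h1 fun m => Eq.symm ?_)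
    have h2 : ∀ j : Fib N m, ‖tm N s j.1‖ = ((j.1.2 : ℝ) + 1)⁻¹ * (m : ℝ) ^ (-s.re) := by
      intro j
      rw [norm_tm hN, j.2]
    change ∑' j : Fib N m, ‖tm N s j.1‖ = _
    rw [tsum_congr h2, tsum_mul_right]
    change cf N m * _ = _
    rw [LSeries.norm_term_eq]
    split_ifs with h3
    · subst h3
      rw [cf_zero hN, zero_mul]
    · rw [Complex.norm_real, Real.norm_of_nonneg (cf_nonneg N m), Real.rpow_neg (by positivity),
        div_eq_mul_inv]

lemma hasSum_tm {s : ℂ} (hs : x < s.re) :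
    HasSum (tm N s) (LSeries (fun m => (cf N m : ℂ)) s) := by
  have h1 := (summable_tm hN hfin hC hs)
  have h2 := h1.hasSum
  rw [← (Equiv.sigmaFiberEquiv fun j : ι × ℕ => N j.1 ^ (j.2 + 1)).hasSum_iff] at h2
  have h3 : HasSum (fun m => LSeries.term (fun m => (cf N m : ℂ)) s m) (∑' b, tm N s b) := by
    refine h2.sigma fun m => ?_
    have := hfin m
    have h4 : ∀ j : Fib N m, tm N s j.1 = (((j.1.2 : ℝ) + 1)⁻¹ : ℝ) * (m : ℂ) ^ (-s) := by
      intro j
      rw [tm_eq, j.2]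
    have h5 : HasSum (fun j : Fib N m => (((((j.1.2 : ℝ) + 1)⁻¹ : ℝ)) : ℂ) * (m : ℂ) ^ (-s))
        ((cf N m : ℂ) * (m : ℂ) ^ (-s)) := by
      have h6 : Summable fun j : Fib N m => ((j.1.2 : ℝ) + 1)⁻¹ := Summable.of_finite
      exact (Complex.hasSum_ofReal.mpr h6.hasSum).mul_right _
    have h7 : LSeries.term (fun m => (cf N m : ℂ)) s m = (cf N m : ℂ) * (m : ℂ) ^ (-s) := by
      rw [LSeries.term_def]
      split_ifs with h8
      · subst h8
        rw [cf_zero hN]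
        simp
      · rw [Complex.cpow_neg, div_eq_mul_inv]
    rw [h7]
    exact h5.congr_fun h4
  rw [h3.tsum_eq.symm] at h2
  have h4 : LSeries (fun m => (cf N m : ℂ)) s = ∑' b, tm N s b := h3.tsum_eq
  rw [h4]
  exact h1.hasSum

/-- The Euler product is the exponential of a Dirichlet series. -/
theorem euler {s : ℂ} (hs : x < s.re) (hs0 : 0 < s.re) :
    HasProd (fun i => (1 - (N i : ℂ) ^ (-s))⁻¹)
      (Complex.exp (LSeries (fun m => (cf N m : ℂ)) s)) := by
  have h1 := hasSum_tm hN hfin hC hs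
  have hlt : ∀ i, ‖(N i : ℂ) ^ (-s)‖ < 1 := by
    intro i
    rw [Complex.norm_natCast_cpow_of_pos (zero_lt_one.trans (hN i)), Complex.neg_re]
    exact Real.rpow_lt_one_of_one_lt_of_neg (by exact_mod_cast hN i) (by linarith)
  have h4 : ∀ i, HasSum (fun k => tm N s (i, k)) (-Complex.log (1 - (N i : ℂ) ^ (-s))) := by
    intro i
    have h := Complex.hasSum_taylorSeries_neg_log' (hlt i)
    simp only [tm]
    exact h
  have h2 : HasSum (fun i => -Complex.log (1 - (N i : ℂ) ^ (-s)))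
      (LSeries (fun m => (cf N m : ℂ)) s) := HasSum.prod_fiberwise h1 h4
  have h6 := HasSum.cexp h2
  have h7 : (fun i => (1 - (N i : ℂ) ^ (-s))⁻¹) =
      Complex.exp ∘ fun i => -Complex.log (1 - (N i : ℂ) ^ (-s)) := by
    funext i
    have h5 : (1 : ℂ) - (N i : ℂ) ^ (-s) ≠ 0 := by
      intro h6
      have h7 := hlt i
      rw [← sub_eq_zero.mp h6, norm_one] at h7
      exact lt_irrefl _ h7
    rw [Function.comp_apply, Complex.exp_neg, Complex.exp_log h5]
  rw [h7]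
  exact h6

end Pool.Agent.Q193.Zeta
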