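import Pool.Agent.Q193.Zeta.Bnd

/-!
# Closure properties of the class of schemes whose zeta function has a meromorphic continuation
-/

set_option autoImplicit false

open CategoryTheory AlgebraicGeometry Pool.Agent.Y116.UV Pool.Agent.Z125.UN Complex Filter Topology

namespace Pool.Agent.Q193.Zeta

section riemann

/-- The Riemann zeta function is meromorphic. -/
theorem mero_riemann : MeromorphicOn riemannZeta Set.univ := by
  intro z _
  by_cases hz : z = 1
  · subst hz
    refine ⟨2, ?_⟩
    refine Complex.analyticAt_of_differentiable_on_punctured_nhds_of_continuousAt ?_ ?_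
    · filter_upwards [self_mem_nhdsWithin] with s hs
      exact ((differentiableAt_id.sub_const 1).pow 2).smul (differentiableAt_riemannZeta hs)
    · rw [continuousAt_iff_punctured_nhds]
      have h1 := riemannZeta_residue_one
      have h2 : Tendsto (fun s : ℂ => s - 1) (𝓝[≠] 1) (𝓝 0) := by
        have : Tendsto (fun s : ℂ => s - 1) (𝓝 1) (𝓝 (1 - 1)) :=
          (continuous_id.sub continuous_const).tendsto 1
        rw [sub_self] at this
        exact this.mono_left nhdsWithin_le_nhds
      have h3 := h2.mul h1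
      have h4 : (((1 : ℂ) - 1) ^ 2 • riemannZeta 1) = 0 * 1 := by simp
      rw [h4]
      refine h3.congr fun s => ?_
      rw [smul_eq_mul]
      ring
  · refine AnalyticAt.meromorphicAt ?_
    refine DifferentiableOn.analyticAt (s := {1}ᶜ) (fun s hs => ?_) (isOpen_compl_singleton.mem_nhds hz)
    exact (differentiableAt_riemannZeta hs).differentiableWithinAt

/-- the primes -/
abbrev NP : Nat.Primes → ℕ := fun p => p

lemma np_sub (m : ℕ) : Subsingleton (Fib NP m) := by
  refine ⟨fun j j' => ?_⟩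
  obtain ⟨⟨p, e⟩, h⟩ := j
  obtain ⟨⟨q, e'⟩, h'⟩ := j'
  change (p : ℕ) ^ (e + 1) = m at h
  change (q : ℕ) ^ (e' + 1) = m at h'
  have h1 : (p : ℕ) ∣ (q : ℕ) ^ (e' + 1) := by
    rw [h', ← h]
    exact dvd_pow_self _ (Nat.succ_ne_zero e)
  have h2 : (p : ℕ) = q := (Nat.prime_dvd_prime_iff_eq p.2 q.2).mp (p.2.dvd_of_dvd_pow h1)
  have h3 : e = e' := by
    rw [← h2, ← h] at h'
    have := Nat.pow_right_injective p.2.two_le h'
    omega
  refine Subtype.ext (Prod.ext (Subtype.ext h2) h3)

lemma cf_np {p n : ℕ} (hp : p.Prime) (hn : n ≠ 0) : (n : ℝ) * cf NP (p ^ n) = 1 := by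
  have h1 := np_sub (p ^ n)
  have h2 : n - 1 + 1 = n := Nat.sub_add_cancel (Nat.one_le_iff_ne_zero.mpr hn)
  let j : Fib NP (p ^ n) := ⟨(⟨p, hp⟩, n - 1), by
    change p ^ (n - 1 + 1) = p ^ n
    rw [h2]⟩
  have : Unique (Fib NP (p ^ n)) := ⟨⟨j⟩, fun x => Subsingleton.elim _ _⟩
  have h3 : cf NP (p ^ n) = (((n - 1 : ℕ) : ℝ) + 1)⁻¹ := by
    rw [cf, tsum_eq_single j (fun b hb => absurd (Subsingleton.elim b j) hb)]
  have h4 : (((n - 1 : ℕ) : ℝ) + 1) = n := by exact_mod_cast h2
  rw [h3, h4]
  exact mul_inv_cancel₀ (by exact_mod_cast hn)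

lemma cf_np_zero {m : ℕ} (hm : ¬ ∃ p n : ℕ, p.Prime ∧ n ≠ 0 ∧ m = p ^ n) : cf NP m = 0 := by
  have : IsEmpty (Fib NP m) := ⟨fun j => hm ⟨j.1.1, j.1.2 + 1, j.1.1.2, Nat.succ_ne_zero _,
    j.2.symm⟩⟩
  rw [cf, tsum_empty]

lemma card_point (K : Type) [Field K] : Nat.card (Pt (aff ℤ ℤ).left K) = 1 := by
  have h1 : Nat.card (Pt (aff ℤ ℤ).left K) = Nat.card (ℤ →+* K) := Nat.card_congr (ptAff ℤ K)
  rw [h1]
  have : Unique (ℤ →+* K) := ⟨⟨Int.castRingHom K⟩, fun f => RingHom.ext_int _ _⟩
  exact Nat.card_unique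

lemma bounded_point : Bounded (aff ℤ ℤ).left 1 0 := by
  intro K _ _
  have h1 := card_point K
  have : Finite (Pt (aff ℤ ℤ).left K) := Nat.finite_of_card_ne_zero (by rw [h1]; exact one_ne_zero)
  exact ⟨this, by rw [h1]; simp⟩

lemma cf_point (m : ℕ) : cf (nm (aff ℤ ℤ).left) m = cf NP m := by
  by_cases hm : ∃ p n : ℕ, p.Prime ∧ n ≠ 0 ∧ m = p ^ n
  · obtain ⟨p, n, hp, hn, rfl⟩ := hm
    obtain ⟨K, _, _, hK⟩ := exists_field hp hn
    have h1 := (bounded_point K).1
    have h2 := card_pt (aff ℤ ℤ).left K hp hK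
    rw [card_point K, hK, Nat.cast_one] at h2
    have h3 := cf_np hp hn
    have h4 : (n : ℝ) ≠ 0 := by exact_mod_cast hn
    refine mul_left_cancel₀ h4 ?_
    rw [h2, h3]
  · have h1 := cf_eq_zero (aff ℤ ℤ).left hm
    rw [cf_np_zero hm, cf, tsum_empty]

lemma zeta_point {s : ℂ} (hs : 1 < s.re) : zeta (aff ℤ ℤ).left s = riemannZeta s := by
  rw [ft_zeta (ft_aff False) bounded_point (by push_cast; linarith)]
  have h1 := euler (N := NP) (C := 1) (x := 1) (fun p => p.2.one_lt)
    (fun m => by have := np_sub m; infer_instance) (fun m hm => by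
      rw [← cf_point]
      have := cf_le bounded_point m
      simpa using this) hs (by linarith)
  have h2 := riemannZeta_eulerProduct_hasProd hs
  have h3 : (fun m => (cf (nm (aff ℤ ℤ).left) m : ℂ)) = fun m => (cf NP m : ℂ) := by
    funext m
    rw [cf_point]
  rw [lz, h3]
  exact h1.unique h2

lemma co_point : Co (aff ℤ ℤ) := ⟨riemannZeta, mero_riemann, 1, fun _ hs => (zeta_point hs).symm⟩

end riemann

/-- Affine spaces. -/
lemma co_space (n : ℕ) : Co (aff ℤ (MvPolynomial (Fin n) ℤ)) := by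
  have hA : FT False (aff ℤ (MvPolynomial (Fin n) ℤ)) := ft_aff False
  obtain ⟨C, k, b1⟩ := ft_bounded hA
  refine HasCont.congr (co_point.shift (-n)) (τ := max ((k : ℝ) + 1) (1 + n)) fun s hs => ?_
  have c1 : (k : ℝ) + 1 < s.re := lt_of_le_of_lt (le_max_left _ _) hs
  have c2 : (((0 : ℕ) : ℝ) + 1) < (s + ((-n : ℤ) : ℂ)).re := by
    have := lt_of_le_of_lt (le_max_right _ _) hs
    rw [Complex.add_re, Complex.intCast_re]
    push_cast
    linarith
  rw [ft_zeta hA b1 c1, ft_zeta (ft_aff False) bounded_point c2]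
  congr 1
  have h1 : (fun m => (cf (nm (aff ℤ (MvPolynomial (Fin n) ℤ)).left) m : ℂ)) =
      fun m : ℕ => ((m : ℂ) ^ (n : ℤ)) * (cf (nm (aff ℤ ℤ).left) m : ℂ) := by
    funext m
    have := cf_congr b1 bounded_point (fun m : ℕ => (m : ℝ) ^ n) (fun K _ _ => by
      rw [card_point K]
      have h2 : Nat.card (Pt (aff ℤ (MvPolynomial (Fin n) ℤ)).left K) =
        Nat.card (MvPolynomial (Fin n) ℤ →+* K) := Nat.card_congr (ptAff _ K)
      rw [h2, card_poly]
      push_cast
      ring) m
    rw [this]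
    push_cast
    rfl
  rw [lz, lz, h1, lseries_shift]
  congr 1
  push_cast
  ring

/-- isomorphic schemes -/
lemma ft_iso {X Y : Sch ℤ} (hX : FT False X) (e : X ≅ Y) : FT False Y where
  locallyOfFiniteType := by
    have := hX.locallyOfFiniteType
    have h : IsIso e.inv.left := inferInstanceAs (IsIso ((Over.forget _).map e.inv))
    rw [← Over.w e.inv]
    infer_instance
  quasiCompact := by
    have := hX.quasiCompact
    have h : IsIso e.inv.left := inferInstanceAs (IsIso ((Over.forget _).map e.inv))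
    rw [← Over.w e.inv]
    infer_instance
  separated h := h.elim

lemma co_iso {X Y : Sch ℤ} (hX : FT False X) (e : Nonempty (X ≅ Y)) (h : Co X) : Co Y := by
  obtain ⟨e⟩ := e
  refine co_congr hX (ft_iso hX e) (fun K _ _ => ?_) h
  have h1 : IsIso e.hom.left := inferInstanceAs (IsIso ((Over.forget _).map e.hom))
  have e2 := ptEmb e.hom.left K e.hom.left.isOpenEmbedding.injective
    (fun y => res_open e.hom.left y)
  have h2 : Function.Surjective e.hom.left := e.hom.left.surjective
  rw [Nat.card_congr e2]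
  exact Nat.card_congr (Equiv.subtypeUnivEquiv fun P => h2 P.1)

lemma ft_closed {Z X : Sch ℤ} (i : Z ⟶ X) (hX : FT False X) (h : IsClosedImmersion i.left) :
    FT False Z where
  locallyOfFiniteType := by
    have := hX.locallyOfFiniteType
    rw [← Over.w i]
    infer_instance
  quasiCompact := by
    have := hX.quasiCompact
    rw [← Over.w i]
    infer_instance
  separated h := h.elim

lemma ft_open {U X : Sch ℤ} (j : U ⟶ X) (hX : FT False X) (h : IsOpenImmersion j.left) :
    FT False U where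
  locallyOfFiniteType := by
    have := hX.locallyOfFiniteType
    rw [← Over.w j]
    infer_instance
  quasiCompact := by
    have h1 := hX.quasiCompact
    have h2 := hX.locallyOfFiniteType
    have h3 : IsLocallyNoetherian X.left := LocallyOfFiniteType.isLocallyNoetherian X.hom
    rw [← Over.w j]
    infer_instance
  separated h := h.elim

/-- The closure properties. -/
theorem bnd_co : Bnd False Co where
  iso hX e h := co_iso hX e h
  total i j hX ht hZ hU := by
    obtain ⟨τ, h⟩ := zeta_triple hX (ft_closed i hX ht.closed) (ft_open j hX ht.opened) ht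
    exact (HasCont.mul hZ hU).congr fun s hs => (h s hs).1.symm
  opened i j hX ht hZ hX' := by
    obtain ⟨τ, h⟩ := zeta_triple hX (ft_closed i hX ht.closed) (ft_open j hX ht.opened) ht
    refine (HasCont.mul hX' (HasCont.inv hZ)).congr (τ := τ) fun s hs => ?_
    obtain ⟨h1, h2, h3⟩ := h s hs
    rw [h1]
    field_simp
  closed i j hX ht hX' hU := by
    obtain ⟨τ, h⟩ := zeta_triple hX (ft_closed i hX ht.closed) (ft_open j hX ht.opened) ht
    refine (HasCont.mul hX' (HasCont.inv hU)).congr (τ := τ) fun s hs => ?_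
    obtain ⟨h1, h2, h3⟩ := h s hs
    rw [h1]
    field_simp
  space n := co_space n
  jouanolou A _ _ _ m f U j hj hr h := by
    have hU : FT False U := ft_open j (ft_aff False) hj
    obtain ⟨τ, h1⟩ := zeta_jou f hU hj hr
    exact HasCont.of_shift (1 - m : ℤ) (HasCont.congr h h1)
  torus A _ _ _ h := by
    obtain ⟨τ, h1, h2⟩ := zeta_torus A
    exact HasCont.of_torus h h1 h2
  bundle A _ _ _ m f U j hj hr h := by
    have hU : FT False U := ft_open j (ft_aff False) hj
    obtain ⟨τ, h1⟩ := zeta_jou f hU hj hr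
    exact (h.shift (1 - m : ℤ)).congr fun s hs => (h1 s hs).symm

end Pool.Agent.Q193.Zeta
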