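import Pool.Agent.Q193.Zeta.Count
import Pool.Agent.Y116.UV.Defs

/-!
# Points with values in fields: immersions, affine schemes
-/

set_option autoImplicit false

open CategoryTheory AlgebraicGeometry Pool.Agent.Y116.UV

namespace Pool.Agent.Q193.Zeta

section emb

variable {Y X : Scheme.{0}} (g : Y ⟶ X) (K : Type) [Field K]

/-- the map on points -/
noncomputable def ptMap (P : Pt Y K) : Pt X K := ⟨g P.1, g.residueFieldMap P.1 ≫ P.2⟩

variable (hinj : Function.Injective g) (hres : ∀ y, IsIso (g.residueFieldMap y))

include hinj hres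

/-- The points of a subscheme. -/
noncomputable def ptEmb : Pt Y K ≃ {P : Pt X K // P.1 ∈ Set.range g} :=
  Equiv.ofBijective (fun P => ⟨ptMap g K P, P.1, rfl⟩) (by
    constructor
    · rintro ⟨y, φ⟩ ⟨y', φ'⟩ h
      have h1 := congrArg (fun P : {P : Pt X K // P.1 ∈ Set.range g} => P.1.1) h
      obtain rfl : y = y' := hinj h1
      have h2 := congrArg Subtype.val h
      have h3 : g.residueFieldMap y ≫ φ = g.residueFieldMap y ≫ φ' :=
        eq_of_heq (Sigma.mk.inj h2).2
      have := hres y
      rw [cancel_epi] at h3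
      rw [h3]
    · rintro ⟨⟨x, ψ⟩, y, hy⟩
      change g y = x at hy
      subst hy
      have := hres y
      refine ⟨⟨y, inv (g.residueFieldMap y) ≫ ψ⟩, Subtype.ext ?_⟩
      change (⟨g y, g.residueFieldMap y ≫ inv (g.residueFieldMap y) ≫ ψ⟩ : Pt X K) = ⟨g y, ψ⟩
      rw [IsIso.hom_inv_id_assoc])

end emb

lemma res_open {Y X : Scheme.{0}} (g : Y ⟶ X) [IsOpenImmersion g] (y : Y) :
    IsIso (g.residueFieldMap y) := inferInstance

lemma res_closed {Y X : Scheme.{0}} (g : Y ⟶ X) [IsClosedImmersion g] (y : Y) :
    IsIso (g.residueFieldMap y) := by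
  have h1 : Function.Surjective (g.residueFieldMap y) := by
    have h2 : Function.Surjective (g.stalkMap y ≫ Y.residue y) := by
      have h3 := (Y.residue_surjective y).comp (g.stalkMap_surjective y)
      exact h3
    rw [← Scheme.residue_residueFieldMap] at h2
    have h3 : Function.Surjective ((g.residueFieldMap y) ∘ (X.residue (g y))) := h2
    exact h3.of_comp
  have h2 : Function.Bijective (g.residueFieldMap y) := ⟨RingHom.injective _, h1⟩
  exact (ConcreteCategory.isIso_iff_bijective _).mpr h2

/-- Points with values in `K` of a closed subscheme and its complement. -/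
lemma card_triple {R : Type} [CommRing R] {Z X U : Sch R} {i : Z ⟶ X} {j : U ⟶ X}
    (h : IsTriple i j) (K : Type) [Field K] [Finite (Pt X.left K)] :
    Finite (Pt Z.left K) ∧ Finite (Pt U.left K) ∧
      Nat.card (Pt X.left K) = Nat.card (Pt Z.left K) + Nat.card (Pt U.left K) := by
  classical
  have h1 := h.closed
  have h2 := h.opened
  have e1 := ptEmb i.left K i.left.isClosedEmbedding.injective
    (fun y => res_closed i.left y)
  have e2 := ptEmb j.left K j.left.isOpenEmbedding.injective (fun y => res_open j.left y)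
  have f1 : Finite (Pt Z.left K) := Finite.of_equiv _ e1.symm
  have f2 : Finite (Pt U.left K) := Finite.of_equiv _ e2.symm
  refine ⟨f1, f2, ?_⟩
  rw [Nat.card_congr e1, Nat.card_congr e2,
    ← Nat.card_congr (Equiv.sumCompl fun P : Pt X.left K => P.1 ∈ Set.range i.left), Nat.card_sum]
  congr 1
  refine Nat.card_congr (Equiv.subtypeEquivRight fun P => ?_)
  rw [h.compl]
  simp

section affine

variable (B K : Type) [CommRing B] [Field K]

/-- Points of an affine scheme. -/
noncomputable def ptAff : Pt (Spec (CommRingCat.of B)) K ≃ (B →+* K) :=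
  (Scheme.SpecToEquivOfField K (Spec (CommRingCat.of B))).symm.trans
    (Spec.homEquiv.trans
      { toFun := fun f => f.hom
        invFun := fun f => CommRingCat.ofHom f
        left_inv := fun _ => rfl
        right_inv := fun _ => rfl })

lemma mem_ptAff (P : Pt (Spec (CommRingCat.of B)) K) (b : B) :
    b ∈ (show PrimeSpectrum B from P.1).asIdeal ↔ ptAff B K P b = 0 := by
  obtain ⟨φ, rfl⟩ := (ptAff B K).symm.surjective P
  rw [Equiv.apply_symm_apply]
  change b ∈ (show PrimeSpectrum B from
    (Spec.map (CommRingCat.ofHom φ)) (IsLocalRing.closedPoint K)).asIdeal ↔ _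
  change φ b ∈ IsLocalRing.maximalIdeal K ↔ _
  simp

end affine

end Pool.Agent.Q193.Zeta
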