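import Pool.Agent.Q193.Zeta.Prod

/-!
# The hypersurface `x y z = 1` and affine spaces
-/

set_option autoImplicit false

open CategoryTheory AlgebraicGeometry Pool.Agent.Y116.UV Pool.Agent.Z125.UN Complex Filter Topology
  MvPolynomial

namespace Pool.Agent.Q193.Zeta

/-- One edge. -/
def oneEdge : Finset (Fin 1 × Fin 1 × Fin 1) := {(0, 0, 0)}

section card

variable (K : Type) [Field K]

/-- a point -/
def vv (u v : Kˣ) : Fin 1 ⊕ (Fin 1 ⊕ Fin 1) → K
  | Sum.inl _ => u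
  | Sum.inr (Sum.inl _) => v
  | Sum.inr (Sum.inr _) => ((u * v)⁻¹ : Kˣ)

lemma one_zero (u v : Kˣ) (a : MvPolynomial (Fin 1 ⊕ (Fin 1 ⊕ Fin 1)) ℤ)
    (ha : a ∈ Ideal.span {∑ h ∈ oneEdge, X (Sum.inl h.1) * X (Sum.inr (Sum.inl h.2.1)) *
      X (Sum.inr (Sum.inr h.2.2)) - (1 : MvPolynomial (Fin 1 ⊕ (Fin 1 ⊕ Fin 1)) ℤ)}) :
    eval₂Hom (Int.castRingHom K) (vv K u v) a = 0 := by
  rw [Ideal.mem_span_singleton] at ha
  obtain ⟨b, rfl⟩ := ha
  rw [map_mul, map_sub, map_one]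
  have h1 : (eval₂Hom (Int.castRingHom K) (vv K u v)) (∑ h ∈ oneEdge, X (Sum.inl h.1) *
      X (Sum.inr (Sum.inl h.2.1)) * X (Sum.inr (Sum.inr h.2.2))) = 1 := by
    simp only [oneEdge, Finset.sum_singleton, map_mul, coe_eval₂Hom, eval₂_X, vv]
    rw [← Units.val_mul, ← Units.val_mul, mul_inv_cancel, Units.val_one]
  rw [h1, sub_self, zero_mul]

/-- the homomorphism of a pair of units -/
noncomputable def oneLift (u v : Kˣ) : Trip ℤ oneEdge →+* K :=
  Ideal.Quotient.lift _ (eval₂Hom (Int.castRingHom K) (vv K u v)) (one_zero K u v)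

lemma oneLift_X (u v : Kˣ) (i : Fin 1 ⊕ (Fin 1 ⊕ Fin 1)) :
    oneLift K u v (Ideal.Quotient.mk _ (X i)) = vv K u v i := by
  simp [oneLift]

lemma one_sol (ψ : Trip ℤ oneEdge →+* K) :
    ψ (Ideal.Quotient.mk _ (X (Sum.inl 0))) * ψ (Ideal.Quotient.mk _ (X (Sum.inr (Sum.inl 0)))) *
      ψ (Ideal.Quotient.mk _ (X (Sum.inr (Sum.inr 0)))) = 1 := by
  have h : (Ideal.Quotient.mk (Ideal.span {∑ h ∈ oneEdge, X (Sum.inl h.1) *
      X (Sum.inr (Sum.inl h.2.1)) * X (Sum.inr (Sum.inr h.2.2)) -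
      (1 : MvPolynomial (Fin 1 ⊕ (Fin 1 ⊕ Fin 1)) ℤ)}) (∑ h ∈ oneEdge, X (Sum.inl h.1) *
      X (Sum.inr (Sum.inl h.2.1)) * X (Sum.inr (Sum.inr h.2.2)) - 1) : Trip ℤ oneEdge) = 0 :=
    Ideal.Quotient.eq_zero_iff_mem.mpr (Ideal.subset_span rfl)
  have h1 := congrArg ψ h
  rw [map_zero, map_sub, map_sub, map_one, map_one, sub_eq_zero] at h1
  have h2 : (X (Sum.inl 0) * X (Sum.inr (Sum.inl 0)) * X (Sum.inr (Sum.inr 0)) :
      MvPolynomial (Fin 1 ⊕ (Fin 1 ⊕ Fin 1)) ℤ) = ∑ h ∈ oneEdge, X (Sum.inl h.1) *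
      X (Sum.inr (Sum.inl h.2.1)) * X (Sum.inr (Sum.inr h.2.2)) := (Finset.sum_singleton _ _).symm
  have h3 := (congrArg (fun p => ψ (Ideal.Quotient.mk _ p)) h2).trans h1
  simp only [map_mul] at h3
  exact h3

lemma one_ne0 (ψ : Trip ℤ oneEdge →+* K) : ψ (Ideal.Quotient.mk _ (X (Sum.inl 0))) ≠ 0 := by
  intro h
  have := one_sol K ψ
  rw [h, zero_mul, zero_mul] at this
  exact zero_ne_one this

lemma one_ne1 (ψ : Trip ℤ oneEdge →+* K) :
    ψ (Ideal.Quotient.mk _ (X (Sum.inr (Sum.inl 0)))) ≠ 0 := by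
  intro h
  have := one_sol K ψ
  rw [h, mul_zero, zero_mul] at this
  exact zero_ne_one this

/-- Points of `x y z = 1`. -/
noncomputable def oneHom : (Trip ℤ oneEdge →+* K) ≃ Kˣ × Kˣ where
  toFun ψ := (Units.mk0 _ (one_ne0 K ψ), Units.mk0 _ (one_ne1 K ψ))
  invFun x := oneLift K x.1 x.2
  left_inv ψ := by
    refine Ideal.Quotient.ringHom_ext (MvPolynomial.ringHom_ext (fun r => ?_) fun l => ?_)
    · simp
    · rw [RingHom.comp_apply, RingHom.comp_apply, oneLift_X]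
      rcases l with l | l | l
      · have : l = 0 := Subsingleton.elim _ _
        subst this
        rfl
      · have : l = 0 := Subsingleton.elim _ _
        subst this
        rfl
      · have : l = 0 := Subsingleton.elim _ _
        subst this
        change ((Units.mk0 _ (one_ne0 K ψ) * Units.mk0 _ (one_ne1 K ψ))⁻¹ : Kˣ).val = _
        rw [Units.val_inv_eq_inv_val, Units.val_mul]
        exact (eq_inv_of_mul_eq_one_right (one_sol K ψ)).symm
  right_inv x := by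
    refine Prod.ext (Units.ext ?_) (Units.ext ?_)
    · change oneLift K x.1 x.2 (Ideal.Quotient.mk _ (X (Sum.inl 0))) = _
      rw [oneLift_X]
      rfl
    · change oneLift K x.1 x.2 (Ideal.Quotient.mk _ (X (Sum.inr (Sum.inl 0)))) = _
      rw [oneLift_X]
      rfl

lemma card_one_edge : Nat.card (Trip ℤ oneEdge →+* K) = (Nat.card K - 1) * (Nat.card K - 1) := by
  rw [Nat.card_congr (oneHom K), Nat.card_prod, Nat.card_units]

end card

lemma near_torus (B : Type) [CommRing B] [Algebra ℤ B] [Algebra.FiniteType ℤ B] :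
    Near (zeta (aff ℤ (LaurentPolynomial B)).left) (gm (zeta (aff ℤ B).left)) := by
  obtain ⟨τ, _, h2⟩ := zeta_torus B
  obtain ⟨τ', h3⟩ := zeta_ne (X := aff ℤ B) (ft_aff False)
  refine ⟨max τ τ', fun s hs => ?_⟩
  rw [gm, h2 s (lt_of_le_of_lt (le_max_left _ _) hs), mul_div_assoc,
    div_self (h3 s (lt_of_le_of_lt (le_max_right _ _) hs)), mul_one]

/-- The zeta function of `x y z = 1`. -/
lemma near_one : Near (zeta (tripS ℤ oneEdge).left) (gm^[2] (zeta (aff ℤ ℤ).left)) := by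
  have h1 : Near (zeta (tripS ℤ oneEdge).left)
      (zeta (aff ℤ (LaurentPolynomial (LaurentPolynomial ℤ))).left) := by
    refine zeta_congr (ft_aff False) (ft_aff False) fun K _ _ => ?_
    have a1 : Nat.card (Pt (tripS ℤ oneEdge).left K) = Nat.card (Trip ℤ oneEdge →+* K) :=
      Nat.card_congr (ptAff _ K)
    have a2 : Nat.card (Pt (aff ℤ (LaurentPolynomial (LaurentPolynomial ℤ))).left K) =
      Nat.card (LaurentPolynomial (LaurentPolynomial ℤ) →+* K) := Nat.card_congr (ptAff _ K)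
    have a3 : Nat.card (ℤ →+* K) = 1 := by
      have : Unique (ℤ →+* K) := ⟨⟨Int.castRingHom K⟩, fun f => RingHom.ext_int _ _⟩
      exact Nat.card_unique
    rw [a1, a2, card_one_edge, card_laurent, card_laurent, a3, one_mul]
  exact h1.trans ((near_torus _).trans (near_gm (near_torus ℤ)))

lemma near_space (n : ℕ) : Near (fun s => zeta (aff ℤ ℤ).left (s + ((-n : ℤ) : ℂ)))
    (zeta (aff ℤ (MvPolynomial (Fin n) ℤ)).left) := by
  have hA : FT False (aff ℤ (MvPolynomial (Fin n) ℤ)) := ft_aff False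
  obtain ⟨C, k, b1⟩ := ft_bounded hA
  refine ⟨max ((k : ℝ) + 1) (1 + n), fun s hs => ?_⟩
  have c1 : (k : ℝ) + 1 < s.re := lt_of_le_of_lt (le_max_left _ _) hs
  have c2 : (((0 : ℕ) : ℝ) + 1) < (s + ((-n : ℤ) : ℂ)).re := by
    have := lt_of_le_of_lt (le_max_right _ _) hs
    rw [Complex.add_re, Complex.intCast_re]
    push_cast
    linarith
  beta_reduce
  symm
  rw [ft_zeta hA b1 c1, ft_zeta (ft_aff False) bounded_point c2]
  congr 1
  have h1 : (fun m => (cf (nm (aff ℤ (MvPolynomial (Fin n) ℤ)).left) m : ℂ)) =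
      fun m : ℕ => ((m : ℂ) ^ (n : ℤ)) * (cf (nm (aff ℤ ℤ).left) m : ℂ) := by
    funext m
    have := cf_congr b1 bounded_point (fun m : ℕ => (m : ℝ) ^ n) (fun K _ _ => by
      rw [card_point K]
      have h2 : Nat.card (Pt (aff ℤ (MvPolynomial (Fin n) ℤ)).left K) =
        Nat.card (MvPolynomial (Fin n) ℤ →+* K) := Nat.card_congr (ptAff _ K)
      rw [h2, card_poly]
      push_cast
      ring) m
    rw [this]
    push_cast
    rfl
  rw [lz, lz, h1, lseries_shift]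
  congr 1
  push_cast
  ring

lemma near_riemann : Near (zeta (aff ℤ ℤ).left) riemannZeta := ⟨1, fun _ hs => zeta_point hs⟩

end Pool.Agent.Q193.Zeta
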