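import Pool.Agent.Q193.Zeta.Final

/-!
# Classes of functions on half-planes and the zeta functions of schemes; products of shifts of the zeta
functions of hypergraphs
-/

set_option autoImplicit false

open CategoryTheory AlgebraicGeometry Pool.Agent.Y116.UV Pool.Agent.Z125.UN Complex Filter Topology

namespace Pool.Agent.Q193.Zeta

/-- Equality on a half-plane. -/
def Near (Z W : ℂ → ℂ) : Prop := ∃ τ : ℝ, ∀ s : ℂ, τ < s.re → Z s = W s

lemma Near.rfl {Z : ℂ → ℂ} : Near Z Z := ⟨0, fun _ _ => Eq.refl _⟩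

lemma Near.symm {Z W : ℂ → ℂ} (h : Near Z W) : Near W Z := by
  obtain ⟨τ, h⟩ := h
  exact ⟨τ, fun s hs => (h s hs).symm⟩

lemma Near.trans {Z W V : ℂ → ℂ} (h : Near Z W) (h' : Near W V) : Near Z V := by
  obtain ⟨τ, h⟩ := h
  obtain ⟨τ', h'⟩ := h'
  exact ⟨max τ τ', fun s hs => (h s (lt_of_le_of_lt (le_max_left _ _) hs)).trans
    (h' s (lt_of_le_of_lt (le_max_right _ _) hs))⟩

lemma Near.mul {Z W Z' W' : ℂ → ℂ} (h : Near Z W) (h' : Near Z' W') :
    Near (fun s => Z s * Z' s) (fun s => W s * W' s) := by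
  obtain ⟨τ, h⟩ := h
  obtain ⟨τ', h'⟩ := h'
  refine ⟨max τ τ', fun s hs => ?_⟩
  beta_reduce
  rw [h s (lt_of_le_of_lt (le_max_left _ _) hs), h' s (lt_of_le_of_lt (le_max_right _ _) hs)]

lemma Near.inv {Z W : ℂ → ℂ} (h : Near Z W) : Near (fun s => (Z s)⁻¹) (fun s => (W s)⁻¹) := by
  obtain ⟨τ, h⟩ := h
  refine ⟨τ, fun s hs => ?_⟩
  beta_reduce
  rw [h s hs]

lemma Near.shift {Z W : ℂ → ℂ} (h : Near Z W) (n : ℤ) :
    Near (fun s => Z (s + n)) (fun s => W (s + n)) := by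
  obtain ⟨τ, h⟩ := h
  exact ⟨τ - n, fun s hs => h _ (by rw [Complex.add_re, Complex.intCast_re]; linarith)⟩

/-- A class of functions that are defined on half-planes. -/
structure IsClass (M : (ℂ → ℂ) → Prop) : Prop where
  congr : ∀ {Z W : ℂ → ℂ}, Near Z W → M Z → M W
  mul : ∀ {Z W : ℂ → ℂ}, M Z → M W → M (fun s => Z s * W s)
  inv : ∀ {Z : ℂ → ℂ}, M Z → M (fun s => (Z s)⁻¹)
  shift : ∀ {Z : ℂ → ℂ}, M Z → ∀ n : ℤ, M (fun s => Z (s + n))
  torus : ∀ {Z W : ℂ → ℂ} {τ : ℝ}, M W → (∀ s : ℂ, τ < s.re → MeromorphicAt Z s) →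
    (∀ s : ℂ, τ < s.re → Z s ≠ 0) → (∀ s : ℂ, τ < s.re → Z (s - 1) = W s * Z s) → M Z
  space : ∀ n : ℕ, M (zeta (aff ℤ (MvPolynomial (Fin n) ℤ)).left)

lemma zeta_ne {X : Sch ℤ} (hX : FT False X) : ∃ τ : ℝ, ∀ s : ℂ, τ < s.re → zeta X.left s ≠ 0 := by
  obtain ⟨C, k, b⟩ := ft_bounded hX
  exact ⟨(k : ℝ) + 1, fun s hs => by
    rw [ft_zeta hX b hs]
    exact Complex.exp_ne_zero _⟩

/-- Equal numbers of points give equal zeta functions. -/
lemma zeta_congr {X Y : Sch ℤ} (hX : FT False X) (hY : FT False Y)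
    (h : ∀ (K : Type) [Field K] [Finite K], Nat.card (Pt X.left K) = Nat.card (Pt Y.left K)) :
    Near (zeta X.left) (zeta Y.left) := by
  obtain ⟨C, k, b1⟩ := ft_bounded hX
  obtain ⟨C', k', b2⟩ := ft_bounded hY
  refine ⟨max ((k : ℝ) + 1) ((k' : ℝ) + 1), fun s hs => ?_⟩
  rw [ft_zeta hX b1 (lt_of_le_of_lt (le_max_left _ _) hs),
    ft_zeta hY b2 (lt_of_le_of_lt (le_max_right _ _) hs)]
  have h1 : (fun m => (cf (nm X.left) m : ℂ)) = fun m => (cf (nm Y.left) m : ℂ) := by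
    funext m
    have := cf_congr b1 b2 (fun _ => 1) (fun K _ _ => by
      rw [one_mul]
      exact_mod_cast h K) m
    rw [this, one_mul]
  rw [lz, lz, h1]

lemma zeta_iso {X Y : Sch ℤ} (hX : FT False X) (e : Nonempty (X ≅ Y)) :
    Near (zeta X.left) (zeta Y.left) := by
  obtain ⟨e⟩ := e
  refine zeta_congr hX (ft_iso hX e) (fun K _ _ => ?_)
  have h1 : IsIso e.hom.left := inferInstanceAs (IsIso ((Over.forget _).map e.hom))
  have e2 := ptEmb e.hom.left K e.hom.left.isOpenEmbedding.injective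
    (fun y => res_open e.hom.left y)
  have h2 : Function.Surjective e.hom.left := e.hom.left.surjective
  rw [Nat.card_congr e2]
  exact Nat.card_congr (Equiv.subtypeUnivEquiv fun P => h2 P.1)

variable {M : (ℂ → ℂ) → Prop}

/-- The closure properties of the class of schemes with zeta function in `M`. -/
theorem bnd_class (hM : IsClass M) : Bnd False (fun X : Sch ℤ => M (zeta X.left)) where
  iso hX e h := hM.congr (zeta_iso hX e) h
  total i j hX ht hZ hU := by
    obtain ⟨τ, h⟩ := zeta_triple hX (ft_closed i hX ht.closed) (ft_open j hX ht.opened) ht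
    exact hM.congr ⟨τ, fun s hs => (h s hs).1.symm⟩ (hM.mul hZ hU)
  opened i j hX ht hZ hX' := by
    obtain ⟨τ, h⟩ := zeta_triple hX (ft_closed i hX ht.closed) (ft_open j hX ht.opened) ht
    refine hM.congr ⟨τ, fun s hs => ?_⟩ (hM.mul hX' (hM.inv hZ))
    obtain ⟨h1, h2, h3⟩ := h s hs
    rw [h1]
    field_simp
  closed i j hX ht hX' hU := by
    obtain ⟨τ, h⟩ := zeta_triple hX (ft_closed i hX ht.closed) (ft_open j hX ht.opened) ht
    refine hM.congr ⟨τ, fun s hs => ?_⟩ (hM.mul hX' (hM.inv hU))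
    obtain ⟨h1, h2, h3⟩ := h s hs
    rw [h1]
    field_simp
  space n := hM.space n
  jouanolou A _ _ _ m f U j hj hr h := by
    have hU : FT False U := ft_open j (ft_aff False) hj
    obtain ⟨τ, h1⟩ := zeta_jou f hU hj hr
    have h2 := hM.shift (hM.congr ⟨τ, h1⟩ h) (-(1 - m : ℤ))
    refine hM.congr ⟨0, fun s _ => ?_⟩ h2
    beta_reduce
    congr 1
    push_cast
    ring
  torus A _ _ _ h := by
    obtain ⟨τ, h1, h2⟩ := zeta_torus A
    obtain ⟨τ', h3⟩ := zeta_ne (X := aff ℤ A) (ft_aff False)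
    exact hM.torus (τ := max τ τ') h (fun s hs => h1 s (lt_of_le_of_lt (le_max_left _ _) hs))
      (fun s hs => h3 s (lt_of_le_of_lt (le_max_right _ _) hs))
      (fun s hs => h2 s (lt_of_le_of_lt (le_max_left _ _) hs))
  bundle A _ _ _ m f U j hj hr h := by
    have hU : FT False U := ft_open j (ft_aff False) hj
    obtain ⟨τ, h1⟩ := zeta_jou f hU hj hr
    exact hM.congr ⟨τ, fun s hs => (h1 s hs).symm⟩ (hM.shift h (1 - m : ℤ))

/-- The passage from `ζ_X` to `ζ_{X × 𝔾_m}`. -/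
noncomputable def gm (Z : ℂ → ℂ) : ℂ → ℂ := fun s => Z (s - 1) / Z s

lemma near_gm {Z W : ℂ → ℂ} (h : Near Z W) : Near (gm Z) (gm W) := by
  obtain ⟨τ, h⟩ := h
  refine ⟨τ + 1, fun s hs => ?_⟩
  rw [gm, gm, h (s - 1) (by rw [Complex.sub_re, Complex.one_re]; linarith),
    h s (by linarith)]

lemma gm_mul (Z W : ℂ → ℂ) : gm (fun s => Z s * W s) = fun s => gm Z s * gm W s := by
  funext s
  simp only [gm]
  rw [mul_div_mul_comm]

lemma gm_inv (Z : ℂ → ℂ) : gm (fun s => (Z s)⁻¹) = fun s => (gm Z s)⁻¹ := by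
  funext s
  simp only [gm]
  rw [inv_div, inv_div_inv]

lemma gm_shift (Z : ℂ → ℂ) (n : ℤ) : gm (fun s => Z (s + n)) = fun s => gm Z (s + n) := by
  funext s
  simp only [gm]
  congr 2
  ring

lemma near_iter {Z W : ℂ → ℂ} (k : ℕ) (h : Near Z W) : Near (gm^[k] Z) (gm^[k] W) := by
  induction k with
  | zero => exact h
  | succ k ih =>
    rw [Function.iterate_succ_apply', Function.iterate_succ_apply']
    exact near_gm ih

lemma iter_mul (k : ℕ) (Z W : ℂ → ℂ) :
    gm^[k] (fun s => Z s * W s) = fun s => gm^[k] Z s * gm^[k] W s := by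
  induction k with
  | zero => rfl
  | succ k ih => rw [Function.iterate_succ_apply', Function.iterate_succ_apply',
      Function.iterate_succ_apply', ih, gm_mul]

lemma iter_inv (k : ℕ) (Z : ℂ → ℂ) : gm^[k] (fun s => (Z s)⁻¹) = fun s => (gm^[k] Z s)⁻¹ := by
  induction k with
  | zero => rfl
  | succ k ih => rw [Function.iterate_succ_apply', Function.iterate_succ_apply', ih, gm_inv]

lemma iter_shift (k : ℕ) (Z : ℂ → ℂ) (n : ℤ) :
    gm^[k] (fun s => Z (s + n)) = fun s => gm^[k] Z (s + n) := by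
  induction k with
  | zero => rfl
  | succ k ih => rw [Function.iterate_succ_apply', Function.iterate_succ_apply', ih, gm_shift]

section gen

variable {ι : Type*} (G : ι → ℂ → ℂ)

/-- `Z` is a finite product of integral powers of shifts of the functions `G i`. -/
def IsProd (Z : ℂ → ℂ) : Prop :=
  ∃ (L : List (ι × ℤ × ℤ)) (σ : ℝ), ∀ s : ℂ, σ < s.re →
    Z s = (L.map fun p => G p.1 (s + p.2.1) ^ p.2.2).prod

variable {G}

lemma IsProd.congr {Z W : ℂ → ℂ} (e : Near Z W) (h : IsProd G Z) : IsProd G W := by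
  obtain ⟨L, hL⟩ := h
  have h1 : Near Z (fun s => (L.map fun p => G p.1 (s + p.2.1) ^ p.2.2).prod) := hL
  obtain ⟨σ, h2⟩ := e.symm.trans h1
  exact ⟨L, σ, h2⟩

lemma IsProd.mul {Z W : ℂ → ℂ} (h : IsProd G Z) (h' : IsProd G W) :
    IsProd G (fun s => Z s * W s) := by
  obtain ⟨L, hL⟩ := h
  obtain ⟨L', hL'⟩ := h'
  have h1 : Near Z (fun s => (L.map fun p => G p.1 (s + p.2.1) ^ p.2.2).prod) := hL
  have h2 : Near W (fun s => (L'.map fun p => G p.1 (s + p.2.1) ^ p.2.2).prod) := hL'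
  obtain ⟨σ, h3⟩ := h1.mul h2
  refine ⟨L ++ L', σ, fun s hs => ?_⟩
  rw [List.map_append, List.prod_append]
  exact h3 s hs

lemma prod_neg (L : List (ι × ℤ × ℤ)) (s : ℂ) :
    ((L.map fun p => (p.1, p.2.1, -p.2.2)).map fun p => G p.1 (s + p.2.1) ^ p.2.2).prod =
      ((L.map fun p => G p.1 (s + p.2.1) ^ p.2.2).prod)⁻¹ := by
  induction L with
  | nil => simp
  | cons p L ih =>
    rw [List.map_cons, List.map_cons, List.prod_cons, ih, List.map_cons, List.prod_cons, mul_inv,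
      zpow_neg]

lemma IsProd.inv {Z : ℂ → ℂ} (h : IsProd G Z) : IsProd G (fun s => (Z s)⁻¹) := by
  obtain ⟨L, σ, hL⟩ := h
  refine ⟨L.map fun p => (p.1, p.2.1, -p.2.2), σ, fun s hs => ?_⟩
  rw [prod_neg]
  beta_reduce
  rw [hL s hs]

lemma IsProd.shift {Z : ℂ → ℂ} (h : IsProd G Z) (n : ℤ) : IsProd G (fun s => Z (s + n)) := by
  obtain ⟨L, σ, hL⟩ := h
  refine ⟨L.map fun p => (p.1, n + p.2.1, p.2.2), σ - n, fun s hs => ?_⟩
  rw [List.map_map]
  beta_reduce
  rw [hL (s + n) (by rw [Complex.add_re, Complex.intCast_re]; linarith)]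
  congr 1
  refine List.map_congr_left fun p _ => ?_
  simp only [Function.comp]
  congr 2
  push_cast
  ring

lemma IsProd.gm {Z : ℂ → ℂ} (h : IsProd G Z) : IsProd G (gm Z) := by
  refine IsProd.congr ⟨0, fun s _ => ?_⟩ ((h.shift (-1)).mul h.inv)
  simp only [Zeta.gm]
  rw [div_eq_mul_inv]
  congr 2
  push_cast
  ring

lemma IsProd.iter {Z : ℂ → ℂ} (h : IsProd G Z) (k : ℕ) : IsProd G (Zeta.gm^[k] Z) := by
  induction k with
  | zero => exact h
  | succ k ih =>
    rw [Function.iterate_succ_apply']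
    exact ih.gm

lemma IsProd.of (i : ι) : IsProd G (G i) := by
  refine ⟨[(i, 0, 1)], 0, fun s _ => ?_⟩
  simp

variable (G) in
/-- After finitely many steps `Z(s) ↦ Z(s - 1) / Z(s)`, a finite product of integral powers of shifts of the
functions `G i`. -/
def IsTorusProd (Z : ℂ → ℂ) : Prop := ∃ k : ℕ, IsProd G (Zeta.gm^[k] Z)

/-- These functions form a class. -/
theorem class_prod (h0 : ∀ n : ℕ, IsTorusProd G (zeta (aff ℤ (MvPolynomial (Fin n) ℤ)).left)) :
    IsClass (IsTorusProd G) where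
  congr e h := by
    obtain ⟨k, h⟩ := h
    exact ⟨k, h.congr (near_iter k e)⟩
  mul h h' := by
    obtain ⟨k, h⟩ := h
    obtain ⟨l, h'⟩ := h'
    refine ⟨l + k, ?_⟩
    rw [iter_mul]
    refine IsProd.mul ?_ ?_
    · rw [Function.iterate_add_apply]
      exact h.iter l
    · rw [Nat.add_comm, Function.iterate_add_apply]
      exact h'.iter k
  inv h := by
    obtain ⟨k, h⟩ := h
    refine ⟨k, ?_⟩
    rw [iter_inv]
    exact h.inv
  shift h n := by
    obtain ⟨k, h⟩ := h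
    refine ⟨k, ?_⟩
    rw [iter_shift]
    exact h.shift n
  torus := by
    intro Z W τ h h1 h2 h3
    obtain ⟨k, h⟩ := h
    refine ⟨k + 1, ?_⟩
    rw [Function.iterate_succ_apply]
    refine h.congr (near_iter k ⟨τ, fun s hs => ?_⟩)
    rw [Zeta.gm, h3 s hs, mul_div_assoc, div_self (h2 s hs), mul_one]
  space := h0

end gen

end Pool.Agent.Q193.Zeta
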