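import Pool.Agent.Q193.Zeta.Bundle

/-!
# Zeta functions of schemes of finite type over `ℤ`
-/

set_option autoImplicit false

open CategoryTheory AlgebraicGeometry Pool.Agent.Y116.UV

namespace Pool.Agent.Q193.Zeta

theorem jac_int : IsJacobsonRing ℤ := by
  rw [isJacobsonRing_iff_prime_eq]
  intro P hP
  by_cases h : P = ⊥
  · subst h
    rw [eq_bot_iff]
    intro x hx
    rw [Ideal.mem_jacobson_bot] at hx
    have h1 := hx x
    rw [Int.isUnit_iff] at h1
    rw [Ideal.mem_bot]
    rcases h1 with h1 | h1
    · have : x * x = 0 := by linarith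
      exact mul_self_eq_zero.1 this
    · exfalso
      nlinarith [mul_self_nonneg x]
  · have : P.IsMaximal := IsPrime.to_maximal_ideal h
    exact Ideal.jacobson_eq_self_of_isMaximal

/-- A field that is finitely generated as a ring is finite. -/
theorem finite_of_finiteType (κ : Type) [Field κ] [i : Algebra ℤ κ] [Algebra.FiniteType ℤ κ] :
    Finite κ := by
  obtain rfl : i = Ring.toIntAlgebra κ := Subsingleton.elim _ _
  have := jac_int
  have hfin : Module.Finite ℤ κ := finite_of_finite_type_of_isJacobsonRing ℤ κ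
  have hp0 : ringChar κ ≠ 0 := by
    intro h0
    have hc : CharZero κ := (CharP.charP_zero_iff_charZero κ).1 (ringChar.of_eq h0)
    have hinj : Function.Injective (algebraMap ℤ κ) := by
      have : (algebraMap ℤ κ) = Int.castRingHom κ := RingHom.ext_int _ _
      rw [this]
      exact RingHom.injective_int _
    have hint : Algebra.IsIntegral ℤ κ := Algebra.IsIntegral.of_finite ℤ κ
    exact Int.not_isField (isField_of_isIntegral_of_isField hinj (Field.toIsField κ))
  have hprime : Fact (ringChar κ).Prime := by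
    rcases CharP.char_is_prime_or_zero κ (ringChar κ) with h | h
    · exact ⟨h⟩
    · exact absurd h hp0
  let _ := ZMod.algebra κ (ringChar κ)
  have : IsScalarTower ℤ (ZMod (ringChar κ)) κ := by
    refine IsScalarTower.of_algebraMap_eq' (RingHom.ext_int _ _)
  have : Module.Finite (ZMod (ringChar κ)) κ := Module.Finite.of_restrictScalars_finite ℤ _ κ
  exact Module.finite_of_finite (ZMod (ringChar κ))

lemma finiteType_int {A : Type} [CommRing A] (φ : ℤ →+* A) (h : φ.FiniteType) :
    Algebra.FiniteType ℤ A := by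
  have h1 : φ = algebraMap ℤ A := RingHom.ext_int _ _
  rw [h1, RingHom.finiteType_algebraMap] at h
  exact h

section scheme

variable {S : Scheme.{0}} (f : S ⟶ Spec (CommRingCat.of ℤ)) [LocallyOfFiniteType f]

include f

lemma finite_of_closed {x : S} (hx : IsClosed ({x} : Set S)) : Finite (S.residueField x) := by
  have := jac_int
  have : JacobsonSpace S := LocallyOfFiniteType.jacobsonSpace f
  have h1 := isClosed_singleton_iff_locallyOfFiniteType.mp hx
  obtain ⟨φ, hφ⟩ := Spec.map_surjective (S.fromSpecResidueField x ≫ f)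
  have h2 : LocallyOfFiniteType (Spec.map φ) := by
    rw [hφ]
    infer_instance
  rw [HasRingHomProperty.Spec_iff (P := @LocallyOfFiniteType)] at h2
  have h3 : Algebra.FiniteType ℤ (S.residueField x) := finiteType_int φ.hom h2
  exact finite_of_finiteType (S.residueField x)

lemma closed_of_finite {x : S} (hx : Finite (S.residueField x)) : IsClosed ({x} : Set S) := by
  have := jac_int
  have : JacobsonSpace S := LocallyOfFiniteType.jacobsonSpace f
  rw [isClosed_singleton_iff_locallyOfFiniteType]
  obtain ⟨φ, hφ⟩ := Spec.map_surjective (S.fromSpecResidueField x ≫ f)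
  have h2 : LocallyOfFiniteType (S.fromSpecResidueField x ≫ f) := by
    rw [← hφ, HasRingHomProperty.Spec_iff (P := @LocallyOfFiniteType)]
    have h3 : φ.hom = algebraMap ℤ (S.residueField x) := RingHom.ext_int _ _
    rw [h3, RingHom.finiteType_algebraMap]
    have : Module.Finite ℤ (S.residueField x) := inferInstance
    infer_instance
  exact locallyOfFiniteType_of_comp _ f

lemma finiteType_sections (U : S.Opens) (hU : IsAffineOpen U) : Algebra.FiniteType ℤ Γ(S, U) := by
  have h1 := f.finiteType_appLE (isAffineOpen_top _) hU (by simp)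
  have h2 : (((Scheme.ΓSpecIso (CommRingCat.of ℤ)).inv ≫
      f.appLE ⊤ U (by simp)).hom).FiniteType := by
    refine h1.comp (RingHom.FiniteType.of_surjective _ ?_)
    exact (ConcreteCategory.bijective_of_isIso (Scheme.ΓSpecIso (CommRingCat.of ℤ)).inv).2
  exact finiteType_int _ h2

/-- Few points with values in finite fields. -/
def Bounded (S : Scheme.{0}) (C k : ℕ) : Prop :=
  ∀ (K : Type) [Field K] [Finite K], Finite (Pt S K) ∧ Nat.card (Pt S K) ≤ C * Nat.card K ^ k

/-- Few points with values in finite fields in an open subset. -/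
def BoundedOn (S : Scheme.{0}) (U : S.Opens) : Prop :=
  ∃ C k : ℕ, ∀ (K : Type) [Field K] [Finite K], Finite {P : Pt S K // P.1 ∈ U} ∧
    Nat.card {P : Pt S K // P.1 ∈ U} ≤ C * Nat.card K ^ k

lemma boundedOn_affine (U : S.Opens) (hU : IsAffineOpen U) : BoundedOn S U := by
  have h1 := finiteType_sections f U hU
  obtain ⟨n, hn⟩ := bound_ring Γ(S, U)
  refine ⟨1, n, fun K _ _ => ?_⟩
  obtain ⟨h2, h3⟩ := hn K
  have e1 := ptEmb hU.fromSpec K hU.fromSpec.isOpenEmbedding.injective
    (fun y => res_open hU.fromSpec y)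
  have e2 : {P : Pt S K // P.1 ∈ Set.range hU.fromSpec} ≃ {P : Pt S K // P.1 ∈ U} :=
    Equiv.subtypeEquivRight fun P => by
      rw [hU.range_fromSpec]
      rfl
  have e := (e2.symm.trans e1.symm).trans (ptAff Γ(S, U) K)
  refine ⟨Finite.of_equiv _ e.symm, ?_⟩
  rw [Nat.card_congr e, one_mul]
  exact h3

lemma boundedOn_compact (U : S.Opens) (hU : IsCompact (U : Set S)) : BoundedOn S U := by
  classical
  refine compact_open_induction_on (P := fun U => BoundedOn S U) U hU ?_ ?_
  · refine ⟨0, 0, fun K _ _ => ?_⟩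
    have : IsEmpty {P : Pt S K // P.1 ∈ (⊥ : S.Opens)} := ⟨fun P => P.2⟩
    exact ⟨inferInstance, by simp⟩
  · intro V _ W hV
    obtain ⟨C, k, h1⟩ := hV
    obtain ⟨C', k', h2⟩ := boundedOn_affine f W.1 W.2
    refine ⟨C + C', k + k', fun K _ _ => ?_⟩
    obtain ⟨a1, a2⟩ := h1 K
    obtain ⟨b1, b2⟩ := h2 K
    let g : {P : Pt S K // P.1 ∈ (V ⊔ W.1 : S.Opens)} →
        {P : Pt S K // P.1 ∈ V} ⊕ {P : Pt S K // P.1 ∈ W.1} := fun P =>
      if h : P.1.1 ∈ V then Sum.inl ⟨P.1, h⟩ else Sum.inr ⟨P.1, P.2.resolve_left h⟩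
    have hg : Function.Injective g := by
      intro P Q h
      simp only [g] at h
      split_ifs at h with h3 h4 h4
      · exact Subtype.ext (congrArg (fun x => x.1) (Sum.inl.inj h))
      · exact Subtype.ext (congrArg (fun x => x.1) (Sum.inr.inj h))
    refine ⟨Finite.of_injective g hg, (Nat.card_le_card_of_injective g hg).trans ?_⟩
    rw [Nat.card_sum]
    have hq : 0 < Nat.card K := Nat.card_pos
    have c1 : Nat.card K ^ k ≤ Nat.card K ^ (k + k') := Nat.pow_le_pow_right hq (by omega)
    have c2 : Nat.card K ^ k' ≤ Nat.card K ^ (k + k') := Nat.pow_le_pow_right hq (by omega)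
    calc Nat.card {P : Pt S K // P.1 ∈ V} + Nat.card {P : Pt S K // P.1 ∈ W.1}
        ≤ C * Nat.card K ^ k + C' * Nat.card K ^ k' := add_le_add a2 b2
      _ ≤ C * Nat.card K ^ (k + k') + C' * Nat.card K ^ (k + k') :=
          add_le_add (Nat.mul_le_mul_left _ c1) (Nat.mul_le_mul_left _ c2)
      _ = _ := by ring

lemma bounded [QuasiCompact f] : ∃ C k : ℕ, Bounded S C k := by
  have hc : CompactSpace S := by
    have := (quasiCompact_iff_compactSpace f).mp inferInstance
    exact this
  obtain ⟨C, k, h⟩ := boundedOn_compact f ⊤ (by simpa using hc.isCompact_univ)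
  refine ⟨C, k, fun K _ _ => ?_⟩
  obtain ⟨h1, h2⟩ := h K
  have e : Pt S K ≃ {P : Pt S K // P.1 ∈ (⊤ : S.Opens)} :=
    (Equiv.subtypeUnivEquiv fun _ => trivial).symm
  exact ⟨Finite.of_equiv _ e.symm, by rw [Nat.card_congr e]; exact h2⟩

end scheme

end Pool.Agent.Q193.Zeta
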